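import Mathlib

/-!
Definitions used in the statements about `A = Sym(Sym^2(ℂ^∞))`.
-/

namespace Pool.Agent.Lib.MP50e386

open MvPolynomial

/-- The space `ℂ^∞` with basis `e_0, e_1, …` (finitely supported sequences). -/
abbrev Cinf := ℕ →₀ ℂ

/-- The polynomial ring `A = Sym(Sym^2(ℂ^∞))`: the variable `x_ij = e_i e_j` is indexed by the
unordered pair `s(i, j)`. -/
abbrev SymSym := MvPolynomial (Sym2 ℕ) ℂ

/-- The product `u v ∈ Sym^2(ℂ^∞) ⊆ A` of two vectors: `∑ u_i v_j x_ij`. -/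
noncomputable def prodV (u v : Cinf) : SymSym :=
  u.sum fun i a => v.sum fun j b => C (a * b) * X s(i, j)

theorem prodV_comm (u v : Cinf) : prodV u v = prodV v u := by
  unfold prodV
  rw [Finsupp.sum_comm]
  apply Finsupp.sum_congr
  intro i _
  apply Finsupp.sum_congr
  intro j _
  rw [mul_comm (u j), Sym2.eq_swap]

/-- The action of a linear automorphism `g` of `ℂ^∞` on `A`: the algebra homomorphism with
`x_ij = e_i e_j ↦ (g e_i) (g e_j)`. -/
noncomputable def act (g : Cinf ≃ₗ[ℂ] Cinf) : SymSym →ₐ[ℂ] SymSym :=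
  aeval (fun s => Sym2.lift ⟨fun i j => prodV (g (Finsupp.single i 1)) (g (Finsupp.single j 1)),
    fun _ _ => prodV_comm _ _⟩ s)

/-- Membership in `GL_∞ = ⋃ GL_n`: for some `n`, `g` fixes `e_i` for `i ≥ n` and maps
`ℂ^n = ⟨e_0, …, e_(n-1)⟩` to itself. -/
def IsGL (g : Cinf ≃ₗ[ℂ] Cinf) : Prop :=
  ∃ n : ℕ, (∀ i, n ≤ i → g (Finsupp.single i 1) = Finsupp.single i 1) ∧
    ∀ i < n, ∀ j, n ≤ j → g (Finsupp.single i 1) j = 0

/-- The standard symplectic form `∑_k (x_(2k) y_(2k+1) - x_(2k+1) y_(2k))`. -/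
noncomputable def sympForm (x y : Cinf) : ℂ :=
  x.sum fun i a => if Even i then a * y (i + 1) else -(a * y (i - 1))

/-- The standard symmetric form `∑_i x_i y_i`. -/
noncomputable def symmForm (x y : Cinf) : ℂ := x.sum fun i a => a * y i

/-- Membership in `Sp_∞`. -/
def IsSp (g : Cinf ≃ₗ[ℂ] Cinf) : Prop :=
  IsGL g ∧ ∀ x y, sympForm (g x) (g y) = sympForm x y

/-- Membership in `O_∞`. -/
def IsO (g : Cinf ≃ₗ[ℂ] Cinf) : Prop :=
  IsGL g ∧ ∀ x y, symmForm (g x) (g y) = symmForm x y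

/-- An ideal of `A` is `G`-stable, for the set `G` of automorphisms described by a predicate. -/
def IsStable (G : (Cinf ≃ₗ[ℂ] Cinf) → Prop) (J : Ideal SymSym) : Prop :=
  ∀ g, G g → ∀ f ∈ J, act g f ∈ J

/-- Evaluation of `f ∈ A` at the symmetric matrix `c` times the identity. -/
noncomputable def evalScalar (c : ℂ) : SymSym →ₐ[ℂ] ℂ :=
  aeval (fun s => Sym2.lift ⟨fun i j => if i = j then c else 0, fun i j => by
    simp only [eq_comm]⟩ s)

end Pool.Agent.Lib.MP50e386
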