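import Mathlib

/-!
Linear algebra for bilinear forms on a finite dimensional complex vector space: greedy
construction of tuples with prescribed Gram matrix.
-/

namespace MP50e386

open Module Submodule

section

variable {W : Type*} [AddCommGroup W] [Module ℂ W] [FiniteDimensional ℂ W]

theorem finrank_inf_ker_add (A : Submodule ℂ W) (f : W →ₗ[ℂ] ℂ) :
    finrank ℂ A ≤ finrank ℂ (A ⊓ LinearMap.ker f : Submodule ℂ W) + 1 := by
  have h1 := Submodule.finrank_sup_add_finrank_inf_eq A (LinearMap.ker f)
  have h2 := LinearMap.finrank_range_add_finrank_ker f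
  have h3 : finrank ℂ (LinearMap.range f) ≤ 1 := by
    have := Submodule.finrank_le (LinearMap.range f)
    simpa using this
  have h4 := Submodule.finrank_le (A ⊔ LinearMap.ker f)
  omega

/-- radical of the restriction of `F` to `S` -/
def radS (F : LinearMap.BilinForm ℂ W) (S : Submodule ℂ W) : Submodule ℂ W where
  carrier := {x | x ∈ S ∧ ∀ y ∈ S, F x y = 0}
  zero_mem' := ⟨S.zero_mem, fun y _ => by simp⟩
  add_mem' := by
    rintro a b ⟨ha, ha'⟩ ⟨hb, hb'⟩
    refine ⟨S.add_mem ha hb, fun y hy => ?_⟩
    rw [map_add, LinearMap.add_apply, ha' y hy, hb' y hy, add_zero]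
  smul_mem' := by
    rintro c a ⟨ha, ha'⟩
    refine ⟨S.smul_mem c ha, fun y hy => ?_⟩
    rw [map_smul, LinearMap.smul_apply, ha' y hy, smul_zero]

omit [FiniteDimensional ℂ W] in
theorem mem_radS {F : LinearMap.BilinForm ℂ W} {S : Submodule ℂ W} {x : W} :
    x ∈ radS F S ↔ x ∈ S ∧ ∀ y ∈ S, F x y = 0 := Iff.rfl

/-- The `2`-step condition: a subspace on which `F` has rank at least two contains a pair
with the prescribed Gram matrix. -/
def TwoStep (F : LinearMap.BilinForm ℂ W) (γ : ℕ → ℕ → ℂ) : Prop :=
  ∀ S : Submodule ℂ W, finrank ℂ (radS F S) + 2 ≤ finrank ℂ S →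
    ∃ x ∈ S, ∃ y ∈ S, F x x = γ 0 0 ∧ F x y = γ 0 1 ∧ F y x = γ 1 0 ∧ F y y = γ 1 1

theorem exists_gram (F : LinearMap.BilinForm ℂ W) (hF : F.IsRefl) (γ : ℕ → ℕ → ℂ)
    (hshift : ∀ i j, γ (i + 2) (j + 2) = γ i j)
    (hz1 : ∀ i j, i < 2 → 2 ≤ j → γ i j = 0) (hz2 : ∀ i j, 2 ≤ i → j < 2 → γ i j = 0)
    (hD : γ 0 0 * γ 1 1 - γ 0 1 * γ 1 0 ≠ 0) (hstep : TwoStep F γ) :
    ∀ (l : ℕ) (S : Submodule ℂ W), finrank ℂ (radS F S) + 2 * l ≤ finrank ℂ S →
      ∃ b : ℕ → W, (∀ i < 2 * l, b i ∈ S) ∧ ∀ i < 2 * l, ∀ j < 2 * l, F (b i) (b j) = γ i j := by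
  intro l
  induction l with
  | zero =>
    intro S _
    exact ⟨fun _ => 0, fun i hi => absurd hi (by omega), fun i hi => absurd hi (by omega)⟩
  | succ l ih =>
    intro S hS
    obtain ⟨x, hx, y, hy, h00, h01, h10, h11⟩ := hstep S (by omega)
    set S' : Submodule ℂ W := S ⊓ LinearMap.ker (F x) ⊓ LinearMap.ker (F y) with hS'
    have hmem : ∀ z, z ∈ S' ↔ z ∈ S ∧ F x z = 0 ∧ F y z = 0 := by
      intro z
      simp only [hS', Submodule.mem_inf, LinearMap.mem_ker, and_assoc]
    have hrad : radS F S' ≤ radS F S := by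
      intro z hz
      rw [mem_radS] at hz ⊢
      have hzS := (hmem z).1 hz.1
      refine ⟨hzS.1, ?_⟩
      intro w hw
      set D := γ 0 0 * γ 1 1 - γ 0 1 * γ 1 0 with hDdef
      set a := (γ 1 1 * F x w - γ 0 1 * F y w) / D with ha
      set b := (γ 0 0 * F y w - γ 1 0 * F x w) / D with hb
      have hw' : w - a • x - b • y ∈ S' := by
        rw [hmem]
        refine ⟨S.sub_mem (S.sub_mem hw (S.smul_mem _ hx)) (S.smul_mem _ hy), ?_, ?_⟩
        · rw [map_sub, map_sub, map_smul, map_smul, h00, h01, smul_eq_mul, smul_eq_mul, ha, hb]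
          field_simp
          rw [hDdef]
          ring
        · rw [map_sub, map_sub, map_smul, map_smul, h10, h11, smul_eq_mul, smul_eq_mul, ha, hb]
          field_simp
          rw [hDdef]
          ring
      have h1 := hz.2 _ hw'
      rw [map_sub, map_sub, map_smul, map_smul, hF x z hzS.2.1, hF y z hzS.2.2] at h1
      simpa using h1
    have hf1 := finrank_inf_ker_add S (F x)
    have hf2 := finrank_inf_ker_add (S ⊓ LinearMap.ker (F x)) (F y)
    rw [← hS'] at hf2
    have hf3 := Submodule.finrank_mono hrad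
    obtain ⟨b, hb1, hb2⟩ := ih S' (by omega)
    refine ⟨fun i => if i = 0 then x else if i = 1 then y else b (i - 2), ?_, ?_⟩
    · intro i hi
      by_cases h0 : i = 0
      · simp [h0, hx]
      · by_cases h1 : i = 1
        · simp [h1, hy]
        · simp only [h0, h1, if_false]
          exact ((hmem _).1 (hb1 (i - 2) (by omega))).1
    · intro i hi j hj
      have hxb : ∀ k < 2 * l, F x (b k) = 0 := fun k hk => ((hmem _).1 (hb1 k hk)).2.1
      have hyb : ∀ k < 2 * l, F y (b k) = 0 := fun k hk => ((hmem _).1 (hb1 k hk)).2.2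
      have hbx : ∀ k < 2 * l, F (b k) x = 0 := fun k hk => hF _ _ (hxb k hk)
      have hby : ∀ k < 2 * l, F (b k) y = 0 := fun k hk => hF _ _ (hyb k hk)
      have case2 : ∀ k, k ≠ 0 → k ≠ 1 → k = (k - 2) + 2 := by intro k h0 h1; omega
      by_cases hi0 : i = 0
      · by_cases hj0 : j = 0
        · simp [hi0, hj0, h00]
        · by_cases hj1 : j = 1
          · simp [hi0, hj1, h01]
          · simp only [hi0, hj0, hj1, if_false, if_true]
            rw [hxb _ (by omega), hz1 0 j (by omega) (by omega)]
      · by_cases hi1 : i = 1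
        · by_cases hj0 : j = 0
          · simp [hi1, hj0, h10]
          · by_cases hj1 : j = 1
            · simp [hi1, hj1, h11]
            · simp only [hi1, hj0, hj1, if_false, if_true, one_ne_zero]
              rw [hyb _ (by omega), hz1 1 j (by omega) (by omega)]
        · by_cases hj0 : j = 0
          · simp only [hi0, hi1, hj0, if_false, if_true]
            rw [hbx _ (by omega), hz2 i 0 (by omega) (by omega)]
          · by_cases hj1 : j = 1
            · simp only [hi0, hi1, hj1, if_false, if_true, one_ne_zero]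
              rw [hby _ (by omega), hz2 i 1 (by omega) (by omega)]
            · simp only [hi0, hi1, hj0, hj1, if_false]
              rw [hb2 (i - 2) (by omega) (j - 2) (by omega)]
              conv_rhs => rw [case2 i hi0 hi1, case2 j hj0 hj1]
              exact (hshift _ _).symm

/-- bound for the radical of a restriction of a nondegenerate form -/
theorem finrank_radS_le (F : LinearMap.BilinForm ℂ W) (hnd : F.Nondegenerate) (hF : F.IsRefl)
    (S : Submodule ℂ W) : finrank ℂ (radS F S) + finrank ℂ S ≤ finrank ℂ W := by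
  have h1 : radS F S ≤ F.orthogonal S := by
    intro x hx
    rw [LinearMap.BilinForm.mem_orthogonal_iff]
    intro y hy
    exact hF _ _ (hx.2 y hy)
  have h2 := Submodule.finrank_mono h1
  rw [LinearMap.BilinForm.finrank_orthogonal hnd] at h2
  have := Submodule.finrank_le S
  omega

theorem twoStep_alt (F : LinearMap.BilinForm ℂ W) (hF : F.IsAlt) (γ : ℕ → ℕ → ℂ)
    (h00 : γ 0 0 = 0) (h01 : γ 0 1 = 1) (h10 : γ 1 0 = -1) (h11 : γ 1 1 = 0) :
    TwoStep F γ := by
  intro S hS
  by_cases h : ∀ x ∈ S, ∀ y ∈ S, F x y = 0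
  · exfalso
    have : radS F S = S := by
      apply le_antisymm
      · intro x hx; exact hx.1
      · intro x hx; exact ⟨hx, fun y hy => h x hx y hy⟩
    rw [this] at hS
    omega
  · push Not at h
    obtain ⟨x, hx, y, hy, hxy⟩ := h
    refine ⟨x, hx, (F x y)⁻¹ • y, S.smul_mem _ hy, ?_, ?_, ?_, ?_⟩
    · rw [h00]; exact hF x
    · rw [map_smul, smul_eq_mul, inv_mul_cancel₀ hxy, h01]
    · rw [map_smul, LinearMap.smul_apply, smul_eq_mul, h10, ← hF.neg_eq x y, mul_neg,
        inv_mul_cancel₀ hxy]
    · rw [h11]; exact hF _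

theorem twoStep_symm (F : LinearMap.BilinForm ℂ W) (hF : F.IsSymm) (γ : ℕ → ℕ → ℂ)
    (h00 : γ 0 0 = 1) (h01 : γ 0 1 = 0) (h10 : γ 1 0 = 0) (h11 : γ 1 1 = 1) :
    TwoStep F γ := by
  have hs : ∀ x y, F x y = F y x := fun x y => hF.eq x y
  have one : ∀ S : Submodule ℂ W, finrank ℂ (radS F S) + 1 ≤ finrank ℂ S →
      ∃ x ∈ S, F x x = 1 := by
    intro S hS
    by_cases h : ∀ x ∈ S, F x x = 0
    · exfalso
      have : radS F S = S := by
        apply le_antisymm
        · intro x hx; exact hx.1
        · intro x hx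
          refine ⟨hx, fun y hy => ?_⟩
          have h1 := h (x + y) (S.add_mem hx hy)
          simp only [map_add, LinearMap.add_apply, h x hx, h y hy, hs y x] at h1
          have h2 : 2 * F x y = 0 := by linear_combination h1
          simpa using h2
      rw [this] at hS
      omega
    · push Not at h
      obtain ⟨x, hx, hxx⟩ := h
      obtain ⟨z, hz⟩ := IsAlgClosed.exists_eq_mul_self (F x x)
      have hz0 : z ≠ 0 := by
        rintro rfl
        rw [mul_zero] at hz
        exact hxx hz
      refine ⟨z⁻¹ • x, S.smul_mem _ hx, ?_⟩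
      simp only [map_smul, LinearMap.smul_apply, smul_eq_mul, hz]
      field_simp
  intro S hS
  obtain ⟨x, hx, hxx⟩ := one S (by omega)
  set S' : Submodule ℂ W := S ⊓ LinearMap.ker (F x) with hS'
  have hrad : radS F S' ≤ radS F S := by
    intro z hz
    rw [mem_radS] at hz ⊢
    have hzS : z ∈ S ∧ F x z = 0 := hz.1
    refine ⟨hzS.1, ?_⟩
    intro w hw
    have hw' : w - F x w • x ∈ S' := by
      refine ⟨S.sub_mem hw (S.smul_mem _ hx), ?_⟩
      change F x (w - F x w • x) = 0
      rw [map_sub, map_smul, hxx]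
      simp
    have h1 := hz.2 _ hw'
    rw [map_sub, map_smul, hs z x, hzS.2] at h1
    simpa using h1
  have hf1 := finrank_inf_ker_add S (F x)
  rw [← hS'] at hf1
  have hf3 := Submodule.finrank_mono hrad
  obtain ⟨y, hy, hyy⟩ := one S' (by omega)
  have hyS : y ∈ S ∧ F x y = 0 := hy
  refine ⟨x, hx, y, hyS.1, ?_, ?_, ?_, ?_⟩
  · rw [hxx, h00]
  · rw [hyS.2, h01]
  · rw [hs y x, hyS.2, h10]
  · rw [hyy, h11]

/-- Either there is an `F`-isotropic, `q`-orthonormal `n`-tuple, or `q` vanishes on the
`F`-isotropic vectors of a subspace of codimension at most `2n`. -/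
theorem iso_greedy (F : LinearMap.BilinForm ℂ W) (hF : F.IsRefl)
    (q : LinearMap.BilinForm ℂ W) (hq : q.IsSymm) (n : ℕ) :
    (∃ w : ℕ → W, ∀ i < n, ∀ j < n, F (w i) (w j) = 0 ∧
      q (w i) (w j) = if i = j then 1 else 0) ∨
    (∃ S : Submodule ℂ W, finrank ℂ W ≤ finrank ℂ S + 2 * n ∧
      ∀ x ∈ S, F x x = 0 → q x x = 0) := by
  have hs : ∀ x y, q x y = q y x := fun x y => hq.eq x y
  have key : ∀ n : ℕ, (∃ (w : ℕ → W) (S : Submodule ℂ W), finrank ℂ W ≤ finrank ℂ S + 2 * n ∧
      (∀ x ∈ S, ∀ i < n, F (w i) x = 0 ∧ q (w i) x = 0) ∧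
      ∀ i < n, ∀ j < n, F (w i) (w j) = 0 ∧ q (w i) (w j) = if i = j then 1 else 0) ∨
    (∃ S : Submodule ℂ W, finrank ℂ W ≤ finrank ℂ S + 2 * n ∧
      ∀ x ∈ S, F x x = 0 → q x x = 0) := by
    intro n
    induction n with
    | zero =>
      left
      refine ⟨fun _ => 0, ⊤, by rw [finrank_top]; omega, ?_, ?_⟩
      · intro x _ i hi
        omega
      · intro i hi
        omega
    | succ n ih =>
      rcases ih with ⟨w, S, hS, hSw, hww⟩ | ⟨S, hS, h⟩
      · by_cases hex : ∀ x ∈ S, F x x = 0 → q x x = 0
        · right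
          exact ⟨S, by omega, hex⟩
        · push Not at hex
          obtain ⟨x, hx, hFx, hqx⟩ := hex
          obtain ⟨z, hz⟩ := IsAlgClosed.exists_eq_mul_self (q x x)
          have hz0 : z ≠ 0 := by
            rintro rfl
            rw [mul_zero] at hz
            exact hqx hz
          set y := z⁻¹ • x with hy
          have hyS : y ∈ S := S.smul_mem _ hx
          have hyF : F y y = 0 := by
            simp only [hy, map_smul, LinearMap.smul_apply, hFx, smul_zero]
          have hyq : q y y = 1 := by
            simp only [hy, map_smul, LinearMap.smul_apply, smul_eq_mul, hz]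
            field_simp
          left
          refine ⟨fun i => if i = n then y else w i,
            S ⊓ LinearMap.ker (F y) ⊓ LinearMap.ker (q y), ?_, ?_, ?_⟩
          · have hf1 := finrank_inf_ker_add S (F y)
            have hf2 := finrank_inf_ker_add (S ⊓ LinearMap.ker (F y)) (q y)
            omega
          · intro x hx' i hi
            have hx1 : x ∈ S := hx'.1.1
            have hx2 : F y x = 0 := hx'.1.2
            have hx3 : q y x = 0 := hx'.2
            by_cases h : i = n
            · simp [h, hx2, hx3]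
            · simp only [h, if_false]
              exact hSw x hx1 i (by omega)
          · intro i hi j hj
            by_cases hin : i = n
            · by_cases hjn : j = n
              · simp [hin, hjn, hyF, hyq]
              · have h1 := hSw y hyS j (by omega)
                simp only [hin, hjn, if_true, if_false]
                rw [if_neg (Ne.symm hjn)]
                exact ⟨hF _ _ h1.1, by rw [hs]; exact h1.2⟩
            · by_cases hjn : j = n
              · have h1 := hSw y hyS i (by omega)
                simp only [hin, hjn, if_true, if_false]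
                exact h1
              · simp only [hin, hjn, if_false]
                exact hww i (by omega) j (by omega)
      · right
        exact ⟨S, by omega, h⟩
  rcases key n with ⟨w, S, hS, hSw, hww⟩ | h
  · left
    exact ⟨w, hww⟩
  · right
    exact h

omit [FiniteDimensional ℂ W] in
/-- polarization -/
theorem polar_zero (q : LinearMap.BilinForm ℂ W) (hq : q.IsSymm) (S : Submodule ℂ W)
    (h : ∀ x ∈ S, q x x = 0) : ∀ x ∈ S, ∀ y ∈ S, q x y = 0 := by
  intro x hx y hy
  have h1 := h (x + y) (S.add_mem hx hy)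
  have hs : q y x = q x y := hq.eq y x
  simp only [map_add, LinearMap.add_apply, h x hx, h y hy, hs] at h1
  have h2 : 2 * q x y = 0 := by linear_combination h1
  simpa using h2

/-- A symmetric form vanishing on the null cone of a symmetric form of rank at least two is a
multiple of it. -/
theorem cone_symm (F : LinearMap.BilinForm ℂ W) (hF : F.IsSymm)
    (q : LinearMap.BilinForm ℂ W) (hq : q.IsSymm) (S : Submodule ℂ W)
    (hS : finrank ℂ (radS F S) + 2 ≤ finrank ℂ S)
    (h : ∀ x ∈ S, F x x = 0 → q x x = 0) :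
    ∃ c : ℂ, ∀ x ∈ S, ∀ y ∈ S, q x y = c * F x y := by
  have hsF : ∀ x y, F x y = F y x := fun x y => hF.eq x y
  have hsq : ∀ x y, q x y = q y x := fun x y => hq.eq x y
  obtain ⟨x, hx, y, hy, hxx, hxy, hyx, hyy⟩ := twoStep_symm F hF
    (fun i j => if i = j then 1 else 0) (by simp) (by simp) (by simp) (by simp) S hS
  simp only [if_true, zero_ne_one, one_ne_zero, if_false] at hxx hxy hyx hyy
  -- null vectors
  obtain ⟨a, ha⟩ : ∃ a, a = x + Complex.I • y := ⟨_, rfl⟩
  obtain ⟨b, hb⟩ : ∃ b, b = (1 / 2 : ℂ) • (x - Complex.I • y) := ⟨_, rfl⟩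
  have haS : a ∈ S := by rw [ha]; exact S.add_mem hx (S.smul_mem _ hy)
  have hbS : b ∈ S := by rw [hb]; exact S.smul_mem _ (S.sub_mem hx (S.smul_mem _ hy))
  have hI : Complex.I * Complex.I = -1 := Complex.I_mul_I
  have hFaa : F a a = 0 := by
    rw [ha]
    simp only [map_add, LinearMap.add_apply, map_smul, LinearMap.smul_apply, hxx, hxy, hyx, hyy,
      smul_eq_mul]
    linear_combination hI
  have hFbb : F b b = 0 := by
    rw [hb]
    simp only [map_sub, LinearMap.sub_apply, map_smul, LinearMap.smul_apply, hxx, hxy, hyx, hyy,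
      smul_eq_mul]
    linear_combination (1/4 : ℂ) * hI
  have hFab : F a b = 1 := by
    rw [ha, hb]
    simp only [map_add, map_sub, LinearMap.add_apply, map_smul, LinearMap.smul_apply, hxx, hxy,
      hyx, hyy, smul_eq_mul]
    linear_combination (-1/2 : ℂ) * hI
  have hFba : F b a = 1 := by rw [hsF, hFab]
  have hqaa := h a haS hFaa
  have hqbb := h b hbS hFbb
  set c := q a b with hc
  -- vectors orthogonal to a, b
  have key : ∀ z ∈ S, F a z = 0 → F b z = 0 → q z a = 0 ∧ q z b = 0 ∧ q z z = c * F z z := by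
    intro z hz hza hzb
    have hza' : F z a = 0 := by rw [hsF, hza]
    have hzb' : F z b = 0 := by rw [hsF, hzb]
    have id1 : ∀ s t : ℂ, F z z + 2 * s * t = 0 →
        q z z + 2 * s * q z a + 2 * t * q z b + 2 * s * t * c = 0 := by
      intro s t hst
      have hv : F (z + s • a + t • b) (z + s • a + t • b) = 0 := by
        simp only [map_add, LinearMap.add_apply, map_smul, LinearMap.smul_apply, hFaa, hFbb,
          hFab, hFba, hza, hzb, hza', hzb', smul_eq_mul]
        linear_combination hst
      have hq' := h _ (S.add_mem (S.add_mem hz (S.smul_mem s haS)) (S.smul_mem t hbS)) hv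
      simp only [map_add, LinearMap.add_apply, map_smul, LinearMap.smul_apply, hqaa, hqbb,
        smul_eq_mul, hsq a z, hsq b z, hsq b a] at hq'
      linear_combination hq'
    have e1 := id1 1 (-(F z z) / 2) (by ring)
    have e2 := id1 (-1) (F z z / 2) (by ring)
    have e3 := id1 2 (-(F z z) / 4) (by ring)
    have e4 := id1 (-2) (F z z / 4) (by ring)
    have hA : q z z = c * F z z := by linear_combination (1/2 : ℂ) * e1 + (1/2 : ℂ) * e2
    have hB : 2 * q z a - F z z * q z b = 0 := by
      linear_combination (1/2 : ℂ) * e1 - (1/2 : ℂ) * e2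
    have hC : 4 * q z a - F z z / 2 * q z b = 0 := by
      linear_combination (1/2 : ℂ) * e3 - (1/2 : ℂ) * e4
    have hD : q z a = 0 := by linear_combination (1/3 : ℂ) * hC - (1/6 : ℂ) * hB
    refine ⟨hD, ?_, hA⟩
    -- symmetric role for b
    have e5 := id1 (-(F z z) / 2) 1 (by ring)
    have e6 := id1 (F z z / 2) (-1) (by ring)
    rw [hD] at e5 e6
    linear_combination (1/4 : ℂ) * e5 - (1/4 : ℂ) * e6
  refine ⟨c, ?_⟩
  -- diagonal statement
  have diag : ∀ v ∈ S, q v v = c * F v v := by
    intro v hv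
    set z := v - F b v • a - F a v • b with hz
    have hzS : z ∈ S := S.sub_mem (S.sub_mem hv (S.smul_mem _ haS)) (S.smul_mem _ hbS)
    have h1 : F a z = 0 := by
      rw [hz, map_sub, map_sub, map_smul, map_smul, hFaa, hFab]
      simp
    have h2 : F b z = 0 := by
      rw [hz, map_sub, map_sub, map_smul, map_smul, hFba, hFbb]
      simp
    obtain ⟨k1, k2, k3⟩ := key z hzS h1 h2
    have h1' : F z a = 0 := by rw [hsF, h1]
    have h2' : F z b = 0 := by rw [hsF, h2]
    have hv' : v = z + F b v • a + F a v • b := by rw [hz]; abel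
    set s := F b v with hsdef
    set t := F a v with htdef
    rw [hv']
    simp only [map_add, LinearMap.add_apply, map_smul, LinearMap.smul_apply, hFaa, hFbb,
      hFab, hFba, h1, h2, h1', h2', smul_eq_mul, hqaa, hqbb, hsq a z, hsq b z, hsq b a, k1, k2, k3,
      ← hc]
    ring
  have hpol := polar_zero (q - c • F) (by
    constructor
    intro x y
    simp only [LinearMap.sub_apply, LinearMap.smul_apply, hsq x y, hsF x y, RingHom.id_apply]) S (by
    intro v hv
    simp only [LinearMap.sub_apply, LinearMap.smul_apply, diag v hv, smul_eq_mul, sub_self])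
  intro x hx y hy
  have := hpol x hx y hy
  simp only [LinearMap.sub_apply, LinearMap.smul_apply, smul_eq_mul] at this
  linear_combination this

end

end MP50e386
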