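import Mathlib

/-!
The polynomial ring `A = Sym(Sym^2 C^∞)`, substitutions, and the degeneration argument.
-/

namespace MP50e386

open MvPolynomial

/-- the space `ℂ^∞` -/
abbrev V := ℕ →₀ ℂ

/-- the polynomial ring in the variables `x_ij` -/
abbrev A := MvPolynomial (Sym2 ℕ) ℂ

/-- basis vector -/
noncomputable abbrev ee (i : ℕ) : V := Finsupp.single i 1

/-- the symmetric bilinear map `V × V → A`, `(e_i, e_j) ↦ x_ij` -/
noncomputable def bil : V →ₗ[ℂ] V →ₗ[ℂ] A :=
  Finsupp.linearCombination ℂ (fun a : ℕ =>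
    (Finsupp.linearCombination ℂ (fun b : ℕ => (X s(a, b) : A)) : V →ₗ[ℂ] A))

theorem bil_ee (i j : ℕ) : bil (ee i) (ee j) = X s(i, j) := by
  unfold bil ee
  rw [Finsupp.linearCombination_single, one_smul, Finsupp.linearCombination_single, one_smul]

theorem bil_comm (u v : V) : bil u v = bil v u := by
  have : bil = bil.flip := by
    apply Finsupp.lhom_ext'
    intro i
    apply LinearMap.ext_ring
    apply Finsupp.lhom_ext'
    intro j
    apply LinearMap.ext_ring
    simp only [LinearMap.comp_apply, Finsupp.lsingle_apply, LinearMap.flip_apply]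
    have h1 := bil_ee i j
    have h2 := bil_ee j i
    unfold ee at h1 h2
    rw [h1, h2, Sym2.eq_swap]
  conv_lhs => rw [this]
  rfl

/-- the symmetric family attached to a tuple of vectors -/
noncomputable def Yw (w : ℕ → V) : Sym2 ℕ → A :=
  Sym2.lift ⟨fun i j => bil (w i) (w j), fun i j => bil_comm _ _⟩

theorem Yw_mk (w : ℕ → V) (i j : ℕ) : Yw w s(i, j) = bil (w i) (w j) := rfl

/-- substitution `x_ij ↦ w_i w_j` -/
noncomputable def sub (w : ℕ → V) : A →ₐ[ℂ] A := aeval (Yw w)

theorem sub_X (w : ℕ → V) (i j : ℕ) : sub w (X s(i, j)) = bil (w i) (w j) := by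
  unfold sub
  rw [aeval_X, Yw_mk]

/-- linear extension of a tuple -/
noncomputable def lin (w : ℕ → V) : V →ₗ[ℂ] V := Finsupp.linearCombination ℂ w

theorem lin_ee (w : ℕ → V) (i : ℕ) : lin w (ee i) = w i := by
  unfold lin ee
  rw [Finsupp.linearCombination_single, one_smul]

theorem sub_bil (w : ℕ → V) (u v : V) : sub w (bil u v) = bil (lin w u) (lin w v) := by
  have : (bil.compr₂ (sub w).toLinearMap) = bil.compl₁₂ (lin w) (lin w) := by
    apply Finsupp.lhom_ext'
    intro i
    apply LinearMap.ext_ring
    apply Finsupp.lhom_ext'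
    intro j
    apply LinearMap.ext_ring
    simp only [LinearMap.comp_apply, Finsupp.lsingle_apply, LinearMap.compr₂_apply,
      LinearMap.compl₁₂_apply, AlgHom.toLinearMap_apply]
    have h1 := bil_ee i j
    have h2 := lin_ee w i
    have h3 := lin_ee w j
    unfold ee at h1 h2 h3
    rw [h1, h2, h3, sub_X]
  have h := congrArg (fun f : V →ₗ[ℂ] V →ₗ[ℂ] A => f u v) this
  simpa using h

theorem sub_sub (w w' : ℕ → V) (f : A) : sub w' (sub w f) = sub (fun i => lin w' (w i)) f := by
  have : (sub w').comp (sub w) = sub (fun i => lin w' (w i)) := by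
    apply MvPolynomial.algHom_ext
    intro s
    induction s using Sym2.ind with
    | _ i j => rw [AlgHom.comp_apply, sub_X, sub_bil, sub_X]
  exact congrArg (fun g : A →ₐ[ℂ] A => g f) this

/-- `f` involves only the variables `x_ij` with `i, j < n` -/
def Lev (n : ℕ) (f : A) : Prop := ∀ s ∈ f.vars, ∀ i ∈ s, i < n

theorem Lev.mono {n m : ℕ} {f : A} (h : Lev n f) (hnm : n ≤ m) : Lev m f :=
  fun s hs i hi => (h s hs i hi).trans_le hnm

theorem exists_lev (f : A) : ∃ n, Lev n f := by
  classical
  refine ⟨(f.vars.sup fun s => Sym2.lift ⟨fun i j => max i j, fun i j => max_comm i j⟩ s) + 1, ?_⟩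
  intro s hs i hi
  have h1 := Finset.le_sup (f := fun s : Sym2 ℕ =>
    Sym2.lift ⟨fun i j => max i j, fun i j => max_comm i j⟩ s) hs
  have h2 : i ≤ Sym2.lift ⟨fun i j => max i j, fun i j => max_comm i j⟩ s := by
    induction s using Sym2.ind with
    | _ a b =>
      rw [Sym2.mem_iff] at hi
      rw [Sym2.lift_mk]
      rcases hi with rfl | rfl
      · exact le_max_left _ _
      · exact le_max_right _ _
  omega

theorem aeval_congr_lev {R : Type*} [CommRing R] [Algebra ℂ R] {n : ℕ} {f : A} (hf : Lev n f)
    (Y Y' : Sym2 ℕ → R) (h : ∀ i < n, ∀ j < n, Y s(i, j) = Y' s(i, j)) :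
    aeval Y f = aeval Y' f := by
  have := hom_congr_vars (f₁ := (aeval Y : A →ₐ[ℂ] R).toRingHom)
    (f₂ := (aeval Y' : A →ₐ[ℂ] R).toRingHom) (p₁ := f) (p₂ := f) (by
      ext x
      simp) (by
      intro s hs _
      simp only [AlgHom.toRingHom_eq_coe, RingHom.coe_coe, aeval_X]
      induction s using Sym2.ind with
      | _ i j =>
        exact h i (hf _ hs i (Sym2.mem_mk_left i j)) j (hf _ hs j (Sym2.mem_mk_right i j))) rfl
  simpa using this

theorem sub_congr {n : ℕ} {f : A} (hf : Lev n f) (w w' : ℕ → V) (h : ∀ i < n, w i = w' i) :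
    sub w f = sub w' f := by
  apply aeval_congr_lev hf
  intro i hi j hj
  rw [Yw_mk, Yw_mk, h i hi, h j hj]

theorem Lev.homogeneousComponent {n : ℕ} {f : A} (hf : Lev n f) (k : ℕ) :
    Lev n (homogeneousComponent k f) := by
  intro s hs
  apply hf s
  rw [mem_vars] at hs ⊢
  obtain ⟨d, hd, hsd⟩ := hs
  refine ⟨d, ?_, hsd⟩
  rw [mem_support_iff] at hd ⊢
  rw [coeff_homogeneousComponent] at hd
  intro h
  rw [h] at hd
  simp at hd

/-- a polynomial in one variable with values in a subspace at infinitely many scalars has all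
its coefficients there -/
theorem coeff_mem_of_infinite {R : Type*} [CommRing R] [Algebra ℂ R] (J : Submodule ℂ R)
    (P : Polynomial R) (T : Set ℂ) (hT : T.Infinite)
    (h : ∀ s ∈ T, P.eval (algebraMap ℂ R s) ∈ J) (k : ℕ) : P.coeff k ∈ J := by
  by_contra hk
  obtain ⟨l, hl1, hl2⟩ := Submodule.exists_le_ker_of_notMem hk
  set r : Polynomial ℂ := ∑ i ∈ Finset.range (P.natDegree + 1), Polynomial.monomial i (l (P.coeff i))
    with hr
  have hr0 : r = 0 := by
    apply Polynomial.eq_zero_of_infinite_isRoot
    apply hT.mono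
    intro s hs
    change r.eval s = 0
    have h1 := hl2 (h s hs)
    rw [LinearMap.mem_ker, Polynomial.eval_eq_sum_range, map_sum] at h1
    rw [hr, Polynomial.eval_finset_sum, ← h1]
    apply Finset.sum_congr rfl
    intro i _
    rw [Polynomial.eval_monomial, ← map_pow, mul_comm (P.coeff i), ← Algebra.smul_def, map_smul,
      smul_eq_mul, mul_comm]
  have h2 : r.coeff k = l (P.coeff k) := by
    rw [hr, Polynomial.finset_sum_coeff]
    simp only [Polynomial.coeff_monomial]
    rw [Finset.sum_ite_eq' ]
    split_ifs with h3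
    · rfl
    · rw [Finset.mem_range, not_lt] at h3
      rw [Polynomial.coeff_eq_zero_of_natDegree_lt (by omega), map_zero]
  rw [hr0, Polynomial.coeff_zero] at h2
  exact hl1 h2.symm

/-- scaling a homogeneous polynomial -/
theorem sub_smul_homog {k : ℕ} {f : A} (hf : f.IsHomogeneous k) (t : ℂ) (w : ℕ → V) :
    sub (fun i => t • w i) f = t ^ (2 * k) • sub w f := by
  have h1 : ∀ s : Sym2 ℕ, Yw (fun i => t • w i) s = C (t ^ 2) * Yw w s := by
    intro s
    induction s using Sym2.ind with
    | _ i j =>
      rw [Yw_mk, Yw_mk, map_smul, map_smul, LinearMap.smul_apply, smul_smul, smul_eq_C_mul, sq]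
  unfold sub
  rw [aeval_def, aeval_def, eval₂_eq, eval₂_eq, Finset.smul_sum]
  apply Finset.sum_congr rfl
  intro d hd
  have hdeg : ∑ i ∈ d.support, d i = k := by
    have := hf (mem_support_iff.1 hd)
    simpa [Finsupp.weight_apply, Finsupp.sum] using this
  simp only [h1, mul_pow]
  rw [Finset.prod_mul_distrib, Finset.prod_pow_eq_pow_sum, hdeg, smul_eq_C_mul]
  rw [← C_pow, ← pow_mul, pow_mul, ← pow_mul]
  ring

/-- polynomial family of substitutions -/
noncomputable def Phi (w c : ℕ → V) : A →ₐ[ℂ] Polynomial A :=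
  aeval (fun s => Polynomial.C (Yw w s) +
    Polynomial.X * Polynomial.C (Sym2.lift ⟨fun i j => bil (w i) (c j) + bil (c i) (w j),
      fun i j => by
        simp only
        rw [bil_comm (w i) (c j), bil_comm (c i) (w j), add_comm]⟩ s) +
    Polynomial.X ^ 2 * Polynomial.C (Yw c s))

theorem Phi_eval (w c : ℕ → V) (s : ℂ) (f : A) :
    (Phi w c f).eval (algebraMap ℂ A s) = sub (fun i => w i + s • c i) f := by
  have : ((Polynomial.aeval (algebraMap ℂ A s) : Polynomial A →ₐ[A] A).restrictScalars ℂ).comp
      (Phi w c) = sub (fun i => w i + s • c i) := by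
    apply MvPolynomial.algHom_ext
    intro x
    induction x using Sym2.ind with
    | _ i j =>
      rw [AlgHom.comp_apply, sub_X]
      unfold Phi
      rw [aeval_X]
      simp only [AlgHom.restrictScalars_apply, Sym2.lift_mk, Yw_mk, map_add, map_mul, map_pow,
        Polynomial.aeval_X, Polynomial.aeval_C, map_smul, LinearMap.add_apply,
        LinearMap.smul_apply, Algebra.algebraMap_self, RingHom.id_apply]
      simp only [Algebra.smul_def, smul_eq_mul]
      ring
  have h := congrArg (fun g : A →ₐ[ℂ] A => g f) this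
  simp only [AlgHom.comp_apply, AlgHom.restrictScalars_apply] at h
  rw [← h, Polynomial.coe_aeval_eq_eval]

/-- the degeneration argument: the top homogeneous part of `f`, evaluated at a tuple `w` which
is a limit of tuples `t w + c` with substitution in `J` -/
theorem top_mem (J : Ideal A) (f : A) (w c : ℕ → V)
    (h : ∀ t : ℂ, t ≠ 0 → sub (fun i => t • w i + c i) f ∈ J) :
    sub w (homogeneousComponent f.totalDegree f) ∈ J := by
  set d := f.totalDegree with hd
  set P : Polynomial A := ∑ k ∈ Finset.range (d + 1),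
    Polynomial.X ^ (2 * (d - k)) * Phi w c (homogeneousComponent k f) with hP
  have hmem : ∀ s ∈ ({0}ᶜ : Set ℂ), P.eval (algebraMap ℂ A s) ∈ J.restrictScalars ℂ := by
    intro s hs
    have hs0 : s ≠ 0 := hs
    have h1 := h s⁻¹ (inv_ne_zero hs0)
    have e1 : P.eval (algebraMap ℂ A s) = s ^ (2 * d) • sub (fun i => s⁻¹ • w i + c i) f := by
      have e2 : f = ∑ k ∈ Finset.range (d + 1), homogeneousComponent k f :=
        (sum_homogeneousComponent f).symm
      conv_rhs => rw [e2]
      rw [map_sum, Finset.smul_sum, hP, Polynomial.eval_finset_sum]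
      apply Finset.sum_congr rfl
      intro k hk
      rw [Finset.mem_range] at hk
      rw [Polynomial.eval_mul, Polynomial.eval_pow, Polynomial.eval_X, Phi_eval]
      have e3 : (fun i => s⁻¹ • w i + c i) = fun i => s⁻¹ • (w i + s • c i) := by
        funext i
        rw [smul_add, smul_smul, inv_mul_cancel₀ hs0, one_smul]
      rw [e3, sub_smul_homog (homogeneousComponent_isHomogeneous k f), smul_smul,
        Algebra.smul_def, ← map_pow]
      congr 2
      have e4 : 2 * d = 2 * (d - k) + 2 * k := by omega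
      rw [e4, pow_add, mul_assoc, inv_pow, mul_inv_cancel₀ (pow_ne_zero _ hs0), mul_one]
    rw [e1]
    exact Submodule.smul_mem _ _ h1
  have hinf : ({0}ᶜ : Set ℂ).Infinite := (Set.finite_singleton (0 : ℂ)).infinite_compl
  have h0 := coeff_mem_of_infinite (J.restrictScalars ℂ) P _ hinf hmem 0
  rw [Polynomial.coeff_zero_eq_eval_zero] at h0
  have e5 : P.eval 0 = sub w (homogeneousComponent d f) := by
    rw [hP, Polynomial.eval_finset_sum, Finset.sum_eq_single d]
    · rw [Polynomial.eval_mul, Nat.sub_self, mul_zero, pow_zero, Polynomial.eval_one, one_mul]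
      have := Phi_eval w c 0 (homogeneousComponent d f)
      rw [map_zero] at this
      rw [this]
      congr 2
      funext i
      rw [zero_smul, add_zero]
    · intro k hk hkd
      rw [Finset.mem_range] at hk
      rw [Polynomial.eval_mul, Polynomial.eval_pow, Polynomial.eval_X, zero_pow (by omega),
        zero_mul]
    · intro hd'
      exact absurd (Finset.mem_range.2 (Nat.lt_succ_self d)) hd'
  rw [e5] at h0
  exact h0

end MP50e386
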