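import Mathlib
import Pool.Agent.Lib.MP_50e386_al.Gram
import Pool.Agent.Lib.MP_50e386_al.Poly

/-!
The standard symmetric and alternating forms on `ℂ^∞`, and extension of isometric tuples to
finitary isometries.
-/

namespace MP50e386

open Module Submodule

/-- data describing a standard Gram matrix: `γ i j = σ i` if `j = π i` and `0` otherwise -/
structure GData (π : ℕ → ℕ) (σ : ℕ → ℂ) (ε : ℂ) : Prop where
  inv : ∀ i, π (π i) = i
  shift : ∀ i, π (i + 2) = π i + 2
  small0 : π 0 < 2
  small1 : π 1 < 2
  sne : ∀ i, σ i ≠ 0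
  sshift : ∀ i, σ (i + 2) = σ i
  sym : ∀ i, σ (π i) = ε * σ i
  eps : ε = 1 ∨ ε = -1

/-- the standard Gram matrix -/
noncomputable def gam (π : ℕ → ℕ) (σ : ℕ → ℂ) (i j : ℕ) : ℂ := if j = π i then σ i else 0

/-- the bilinear form with Gram matrix `gam` -/
noncomputable def frm (π : ℕ → ℕ) (σ : ℕ → ℂ) : LinearMap.BilinForm ℂ V :=
  Finsupp.linearCombination ℂ (fun i : ℕ => Finsupp.linearCombination ℂ (fun j : ℕ => gam π σ i j))

section

variable {π : ℕ → ℕ} {σ : ℕ → ℂ} {ε : ℂ}

theorem frm_ee (i j : ℕ) : frm π σ (ee i) (ee j) = gam π σ i j := by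
  unfold frm ee
  rw [Finsupp.linearCombination_single, one_smul, Finsupp.linearCombination_single, one_smul]

theorem frm_ee_left (i : ℕ) (y : V) : frm π σ (ee i) y = σ i * y (π i) := by
  unfold frm ee
  rw [Finsupp.linearCombination_single, one_smul, Finsupp.linearCombination_apply]
  unfold gam
  rw [Finsupp.sum, Finset.sum_eq_single (π i)]
  · rw [if_pos rfl, smul_eq_mul, mul_comm]
  · intro b _ hb
    rw [if_neg hb, smul_zero]
  · intro h
    rw [Finsupp.notMem_support_iff] at h
    rw [h, zero_smul]

theorem frm_refl_eps (h : GData π σ ε) (x y : V) : frm π σ x y = ε * frm π σ y x := by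
  have : frm π σ = ε • (frm π σ).flip := by
    apply Finsupp.lhom_ext'
    intro i
    apply LinearMap.ext_ring
    apply Finsupp.lhom_ext'
    intro j
    apply LinearMap.ext_ring
    change frm π σ (ee i) (ee j) = ε * frm π σ (ee j) (ee i)
    rw [frm_ee, frm_ee]
    unfold gam
    by_cases hj : j = π i
    · rw [if_pos hj, if_pos (by rw [hj, h.inv]), hj, h.sym, ← mul_assoc]
      rcases h.eps with e | e <;> rw [e] <;> ring
    · rw [if_neg hj, if_neg (fun h' => hj (by rw [h', h.inv])), mul_zero]
  conv_lhs => rw [this]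
  rfl

theorem frm_isRefl (h : GData π σ ε) : (frm π σ).IsRefl := by
  intro x y hxy
  rw [frm_refl_eps h, hxy, mul_zero]

theorem frm_ee_right (h : GData π σ ε) (x : V) (j : ℕ) :
    frm π σ x (ee j) = ε * (σ j * x (π j)) := by
  rw [frm_refl_eps h, frm_ee_left]

theorem pi_lt (h : GData π σ ε) {n : ℕ} (hn : Even n) {i : ℕ} (hi : i < n) : π i < n := by
  obtain ⟨k, hk⟩ := hn
  have h2k : n = 2 * k := by omega
  subst h2k
  clear hk
  induction k generalizing i with
  | zero => omega
  | succ k ih =>
    by_cases h0 : i = 0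
    · have := h.small0
      rw [h0]; omega
    · by_cases h1 : i = 1
      · have := h.small1
        rw [h1]; omega
      · obtain ⟨j, rfl⟩ : ∃ j, i = j + 2 := ⟨i - 2, by omega⟩
        rw [h.shift]
        have := ih (i := j) (by omega)
        omega

theorem gam_shift (h : GData π σ ε) (i j : ℕ) : gam π σ (i + 2) (j + 2) = gam π σ i j := by
  unfold gam
  rw [h.shift, h.sshift]
  by_cases hj : j = π i
  · rw [if_pos (by omega), if_pos hj]
  · rw [if_neg (by omega), if_neg hj]

theorem gam_shift' (h : GData π σ ε) {N : ℕ} (hN : Even N) (i j : ℕ) :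
    gam π σ (i + N) (j + N) = gam π σ i j := by
  obtain ⟨k, hk⟩ := hN
  have h2k : N = 2 * k := by omega
  subst h2k
  clear hk
  induction k with
  | zero => rfl
  | succ k ih =>
    rw [← ih, ← gam_shift h (i + 2 * k) (j + 2 * k)]
    rfl

theorem gam_zero_left (h : GData π σ ε) {n : ℕ} (hn : Even n) {i j : ℕ} (hi : i < n)
    (hj : n ≤ j) : gam π σ i j = 0 := by
  unfold gam
  rw [if_neg]
  intro h'
  have := pi_lt h hn hi
  omega

theorem gam_zero_right (h : GData π σ ε) {n : ℕ} (hn : Even n) {i j : ℕ} (hi : n ≤ i)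
    (hj : j < n) : gam π σ i j = 0 := by
  unfold gam
  rw [if_neg]
  intro h'
  have := pi_lt h hn hj
  rw [h', h.inv] at this
  omega

theorem gam_D (h : GData π σ ε) :
    gam π σ 0 0 * gam π σ 1 1 - gam π σ 0 1 * gam π σ 1 0 ≠ 0 := by
  unfold gam
  have h0 := h.small0
  have h1 := h.small1
  have hi0 := h.inv 0
  have hi1 := h.inv 1
  have s0 := h.sne 0
  have s1 := h.sne 1
  by_cases e0 : π 0 = 0
  · have e1 : π 1 = 1 := by
      rcases Nat.lt_or_ge (π 1) 1 with hlt | hge
      · exfalso
        have : π 1 = 0 := by omega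
        rw [this, e0] at hi1
        omega
      · omega
    simp [e0, e1, s0, s1]
  · have e0' : π 0 = 1 := by omega
    have e1 : π 1 = 0 := by rw [← e0', hi0]
    simp [e0', e1, s0, s1]

/-- embedding of `ℂ^N` -/
noncomputable def jN (N : ℕ) : (Fin N → ℂ) →ₗ[ℂ] V :=
  Fintype.linearCombination ℂ (fun i : Fin N => ee (i : ℕ))

theorem jN_apply (N : ℕ) (x : Fin N → ℂ) (i : ℕ) :
    jN N x i = if h : i < N then x ⟨i, h⟩ else 0 := by
  unfold jN
  rw [Fintype.linearCombination_apply, Finsupp.finset_sum_apply]
  simp only [Finsupp.smul_apply, smul_eq_mul, ee, Finsupp.single_apply]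
  split_ifs with h
  · rw [Finset.sum_eq_single ⟨i, h⟩]
    · simp
    · intro b _ hb
      rw [if_neg, mul_zero]
      intro h'
      apply hb
      exact Fin.ext h'
    · intro h'
      exact absurd (Finset.mem_univ _) h'
  · apply Finset.sum_eq_zero
    intro b _
    rw [if_neg, mul_zero]
    intro h'
    apply h
    rw [← h']
    exact b.2

theorem jN_injective (N : ℕ) : Function.Injective (jN N) := by
  intro x y hxy
  funext i
  have := congrArg (fun v : V => v (i : ℕ)) hxy
  simp only [jN_apply, i.2, dif_pos] at this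
  exact this

theorem exists_jN {N : ℕ} {x : V} (hx : ∀ i, N ≤ i → x i = 0) : ∃ y, jN N y = x := by
  refine ⟨fun i => x i, ?_⟩
  ext i
  rw [jN_apply]
  split_ifs with h
  · rfl
  · exact (hx i (by omega)).symm

theorem jN_single (N : ℕ) (i : Fin N) : jN N (Pi.single i 1) = ee (i : ℕ) := by
  ext k
  rw [jN_apply, ee, Finsupp.single_apply]
  split_ifs with h1 h2 h2
  · rw [Pi.single_apply, if_pos (Fin.ext h2.symm)]
  · rw [Pi.single_apply, if_neg (fun h => h2 (by rw [← h]))]
  · exact absurd (h2 ▸ i.2) h1
  · rfl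

/-- restriction of the form to `ℂ^N` -/
noncomputable def FN (π : ℕ → ℕ) (σ : ℕ → ℂ) (N : ℕ) : LinearMap.BilinForm ℂ (Fin N → ℂ) :=
  (frm π σ).compl₁₂ (jN N) (jN N)

theorem FN_apply (N : ℕ) (x y : Fin N → ℂ) : FN π σ N x y = frm π σ (jN N x) (jN N y) := rfl

theorem FN_isRefl (h : GData π σ ε) (N : ℕ) : (FN π σ N).IsRefl := by
  intro x y hxy
  exact frm_isRefl h _ _ hxy

theorem FN_nondeg (h : GData π σ ε) {N : ℕ} (hN : Even N) : (FN π σ N).Nondegenerate := by
  have key : ∀ y : Fin N → ℂ, (∀ x, FN π σ N x y = 0) → y = 0 := by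
    intro y hy
    funext i
    have hi : π i < N := pi_lt h hN i.2
    have h1 := hy (Pi.single ⟨π i, hi⟩ 1)
    rw [FN_apply, jN_single, frm_ee_left] at h1
    simp only [h.inv] at h1
    have h2 := (mul_eq_zero.1 h1).resolve_left (h.sne _)
    rw [jN_apply, dif_pos i.2] at h2
    exact h2
  refine ⟨?_, ?_⟩
  · intro x hx
    apply key
    intro y
    exact FN_isRefl h N _ _ (hx y)
  · exact key

/-- a tuple with standard Gram matrix is independent -/
theorem lin_zero_of_gram (h : GData π σ ε) {n : ℕ} (hn : Even n) (u : ℕ → V)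
    (hu : ∀ i < n, ∀ j < n, frm π σ (u i) (u j) = gam π σ i j) (a : Fin n → ℂ)
    (ha : ∀ j < n, frm π σ (u j) (∑ i, a i • u i) = 0) : a = 0 := by
  funext i
  have hi : π i < n := pi_lt h hn i.2
  have h1 := ha (π i) hi
  rw [map_sum, Finset.sum_eq_single i] at h1
  · rw [map_smul, hu _ hi _ i.2] at h1
    unfold gam at h1
    rw [if_pos (h.inv _).symm, smul_eq_mul] at h1
    exact (mul_eq_zero.1 h1).resolve_right (h.sne _)
  · intro j _ hj
    rw [map_smul, hu _ hi _ j.2]
    unfold gam
    rw [if_neg, smul_zero]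
    rw [h.inv]
    intro h'
    exact hj (Fin.ext h')
  · intro h'
    exact absurd (Finset.mem_univ _) h'

/-- the finitary condition: `g` fixes `e_i` for `i ≥ N` and preserves `ℂ^N` -/
def Finitary (g : V ≃ₗ[ℂ] V) : Prop :=
  ∃ N : ℕ, (∀ i, N ≤ i → g (ee i) = ee i) ∧ ∀ i < N, ∀ j, N ≤ j → g (ee i) j = 0

/-- extension of an isometric tuple to a finitary isometry -/
theorem witt (h : GData π σ ε) (hstep : ∀ N, TwoStep (FN π σ N) (gam π σ))
    {n : ℕ} (hn : Even n) (u : ℕ → V)
    (hu : ∀ i < n, ∀ j < n, frm π σ (u i) (u j) = gam π σ i j) :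
    ∃ g : V ≃ₗ[ℂ] V, Finitary g ∧ (∀ x y, frm π σ (g x) (g y) = frm π σ x y) ∧
      ∀ i < n, g (ee i) = u i := by
  classical
  -- a common level
  obtain ⟨N, hN, hnN, huN⟩ : ∃ N, Even N ∧ n ≤ N ∧ ∀ i < n, ∀ j, N ≤ j → u i j = 0 := by
    set S : Finset ℕ := (Finset.range n).biUnion (fun i => (u i).support) with hS
    refine ⟨2 * (n + S.sup id + 1), even_two_mul _, by omega, ?_⟩
    intro i hi j hj
    by_contra hne
    have h1 : j ∈ S := by
      rw [hS, Finset.mem_biUnion]
      exact ⟨i, Finset.mem_range.2 hi, Finsupp.mem_support_iff.2 hne⟩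
    have h2 := Finset.le_sup (f := id) h1
    simp only [id] at h2
    omega
  choose! u' hu' using fun (i : ℕ) (hi : i < n) => exists_jN (huN i hi)
  set F := FN π σ N with hF
  have hFnd : F.Nondegenerate := FN_nondeg h hN
  have hFr : F.IsRefl := FN_isRefl h N
  set U : Submodule ℂ (Fin N → ℂ) := Submodule.span ℂ (Set.range (fun i : Fin n => u' i)) with hU
  have hmemU : ∀ x ∈ U, ∃ a : Fin n → ℂ, x = ∑ i, a i • u' i := by
    intro x hx
    obtain ⟨a, ha⟩ := (Submodule.mem_span_range_iff_exists_fun ℂ).1 hx
    exact ⟨a, ha.symm⟩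
  have hjsum : ∀ a : Fin n → ℂ, jN N (∑ i, a i • u' i) = ∑ i : Fin n, a i • u i := by
    intro a
    rw [map_sum]
    apply Finset.sum_congr rfl
    intro i _
    rw [map_smul, hu' i i.2]
  have hUindep : ∀ x ∈ U, (∀ j < n, F (u' j) x = 0) → x = 0 := by
    intro x hx hjx
    obtain ⟨a, ha⟩ := hmemU x hx
    have h0 := lin_zero_of_gram h hn u hu a (by
      intro j hj
      have := hjx j hj
      rw [hF, FN_apply, hu' j hj, ha, hjsum] at this
      exact this)
    rw [ha, h0]
    simp
  have hUrank : finrank ℂ U = n := by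
    have hli : LinearIndependent ℂ (fun i : Fin n => u' i) := by
      rw [Fintype.linearIndependent_iff]
      intro a ha i
      have h0 := lin_zero_of_gram h hn u hu a (by
        intro j hj
        rw [← hjsum, ha, map_zero, map_zero])
      rw [h0]
      rfl
    rw [hU, finrank_span_eq_card hli, Fintype.card_fin]
  set S := F.orthogonal U with hS
  have hSrank : finrank ℂ S = N - n := by
    rw [hS, LinearMap.BilinForm.finrank_orthogonal hFnd, hUrank]
    simp
  have hrad : radS F S = ⊥ := by
    rw [eq_bot_iff]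
    intro x hx
    rw [mem_radS] at hx
    have h1 : x ∈ F.orthogonal S := by
      rw [LinearMap.BilinForm.mem_orthogonal_iff]
      intro y hy
      exact hFr _ _ (hx.2 y hy)
    rw [hS, LinearMap.BilinForm.orthogonal_orthogonal hFnd hFr] at h1
    have h2 := hx.1
    rw [hS, LinearMap.BilinForm.mem_orthogonal_iff] at h2
    have h3 := hUindep x h1 (fun j hj => h2 _ (Submodule.subset_span ⟨⟨j, hj⟩, rfl⟩))
    rw [h3]
    exact Submodule.zero_mem _
  obtain ⟨l, hl⟩ : ∃ l, N - n = 2 * l := by
    obtain ⟨a, ha⟩ := hN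
    obtain ⟨b, hb⟩ := hn
    exact ⟨a - b, by omega⟩
  obtain ⟨b, hbS, hbb⟩ := exists_gram F hFr (gam π σ) (gam_shift h)
    (fun i j hi hj => gam_zero_left h even_two hi hj)
    (fun i j hi hj => gam_zero_right h even_two hi hj) (gam_D h) (hstep N) l S (by
      rw [hrad, finrank_bot]; omega)
  -- the new frame
  set w : ℕ → V := fun i => if i < n then u i else if i < N then jN N (b (i - n)) else ee i with hw
  have hwN : ∀ i < N, ∃ y, jN N y = w i := by
    intro i hi
    by_cases h1 : i < n
    · exact ⟨u' i, by rw [hu' i h1, hw]; simp [h1]⟩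
    · exact ⟨b (i - n), by rw [hw]; simp [h1, hi]⟩
  have hlow : ∀ i < N, ∀ j, N ≤ j → w i j = 0 := by
    intro i hi j hj
    obtain ⟨y, hy⟩ := hwN i hi
    rw [← hy, jN_apply, dif_neg (by omega)]
  have hgram : ∀ i j, frm π σ (w i) (w j) = gam π σ i j := by
    have hub : ∀ i < n, ∀ k < 2 * l, frm π σ (u i) (jN N (b k)) = 0 := by
      intro i hi k hk
      have h1 := hbS k hk
      rw [hS, LinearMap.BilinForm.mem_orthogonal_iff] at h1
      have h2 := h1 (u' i) (Submodule.subset_span ⟨⟨i, hi⟩, rfl⟩)
      change F (u' i) (b k) = 0 at h2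
      rw [hF, FN_apply, hu' i hi] at h2
      exact h2
    intro i j
    by_cases hiN : i < N
    · by_cases hjN : j < N
      · by_cases hi : i < n
        · by_cases hj : j < n
          · simp only [hw, hi, hj, if_true]
            exact hu i hi j hj
          · simp only [hw, hi, hj, hjN, if_true, if_false]
            rw [hub i hi _ (by omega), gam_zero_left h hn hi (by omega)]
        · by_cases hj : j < n
          · simp only [hw, hi, hj, hiN, if_true, if_false]
            rw [frm_refl_eps h, hub j hj _ (by omega), gam_zero_right h hn (by omega) hj, mul_zero]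
          · simp only [hw, hi, hj, hiN, hjN, if_true, if_false]
            have h1 := hbb (i - n) (by omega) (j - n) (by omega)
            rw [hF, FN_apply] at h1
            rw [h1, ← gam_shift' h hn (i - n) (j - n)]
            congr 1 <;> omega
      · have h2 : w j = ee j := by
          simp only [hw]
          rw [if_neg (by omega), if_neg hjN]
        rw [h2, frm_ee_right h, hlow i hiN _ ?_, gam_zero_left h hN hiN (by omega)]
        · simp
        · by_contra hcon
          have := pi_lt h hN (i := π j) (by omega)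
          rw [h.inv] at this
          omega
    · have h2 : w i = ee i := by
        simp only [hw]
        rw [if_neg (by omega), if_neg hiN]
      by_cases hjN : j < N
      · rw [h2, frm_ee_left, hlow j hjN _ ?_, gam_zero_right h hN (by omega) hjN]
        · simp
        · by_contra hcon
          have := pi_lt h hN (i := π i) (by omega)
          rw [h.inv] at this
          omega
      · have h3 : w j = ee j := by
          simp only [hw]
          rw [if_neg (by omega), if_neg hjN]
        rw [h2, h3, frm_ee]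
  have hpres : ∀ x y, frm π σ (lin w x) (lin w y) = frm π σ x y := by
    have : (frm π σ).compl₁₂ (lin w) (lin w) = frm π σ := by
      apply Finsupp.lhom_ext'
      intro i
      apply LinearMap.ext_ring
      apply Finsupp.lhom_ext'
      intro j
      apply LinearMap.ext_ring
      simp only [LinearMap.comp_apply, Finsupp.lsingle_apply, LinearMap.compl₁₂_apply]
      have h1 := frm_ee (π := π) (σ := σ) i j
      have h2 := lin_ee w i
      have h3 := lin_ee w j
      unfold ee at h1 h2 h3
      rw [h1, h2, h3, hgram]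
    intro x y
    exact congrArg (fun f : LinearMap.BilinForm ℂ V => f x y) this
  have hinj : Function.Injective (lin w) := by
    rw [injective_iff_map_eq_zero]
    intro x hx
    ext i
    have h1 := hpres (ee (π i)) x
    rw [hx, map_zero, frm_ee_left, h.inv] at h1
    have := (mul_eq_zero.1 h1.symm).resolve_left (h.sne _)
    simpa using this
  have hsurj : Function.Surjective (lin w) := by
    -- on `ℂ^N`
    have h1 : ∀ y : Fin N → ℂ, ∃ z, jN N z = lin w (jN N y) := by
      intro y
      apply exists_jN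
      intro i hi
      have e1 : jN N y = ∑ k : Fin N, y k • ee (k : ℕ) := by
        unfold jN
        rw [Fintype.linearCombination_apply]
      rw [e1, map_sum, Finsupp.finset_sum_apply]
      apply Finset.sum_eq_zero
      intro k _
      rw [map_smul, lin_ee, Finsupp.smul_apply, hlow k k.2 i hi, smul_zero]
    choose g0 hg0 using h1
    have hg0lin : ∃ G0 : (Fin N → ℂ) →ₗ[ℂ] (Fin N → ℂ), ∀ y, G0 y = g0 y := by
      refine ⟨{ toFun := g0, map_add' := ?_, map_smul' := ?_ }, fun y => rfl⟩
      · intro x y
        apply jN_injective N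
        rw [map_add, hg0, hg0, hg0, map_add, map_add]
      · intro c x
        apply jN_injective N
        rw [hg0, RingHom.id_apply, map_smul, map_smul, map_smul, hg0]
    obtain ⟨G0, hG0⟩ := hg0lin
    have hG0inj : Function.Injective G0 := by
      intro x y hxy
      apply jN_injective N
      apply hinj
      rw [← hg0, ← hg0, ← hG0, ← hG0, hxy]
    have hG0surj : Function.Surjective G0 := LinearMap.injective_iff_surjective.1 hG0inj
    have hbasis : ∀ i, ∃ x, lin w x = ee i := by
      intro i
      by_cases hi : i < N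
      · obtain ⟨y, hy⟩ := hG0surj (Pi.single ⟨i, hi⟩ 1)
        refine ⟨jN N y, ?_⟩
        rw [← hg0, ← hG0, hy, jN_single]
      · refine ⟨ee i, ?_⟩
        rw [lin_ee, hw]
        simp only
        rw [if_neg (by omega), if_neg hi]
    have hrange : LinearMap.range (lin w) = ⊤ := by
      rw [eq_top_iff]
      intro x _
      have hx : x = x.sum fun i a => a • ee i := by
        conv_lhs => rw [← Finsupp.sum_single x]
        apply Finsupp.sum_congr
        intro i _
        rw [ee, Finsupp.smul_single, smul_eq_mul, mul_one]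
      rw [hx]
      apply Submodule.sum_mem
      intro i _
      apply Submodule.smul_mem
      obtain ⟨y, hy⟩ := hbasis i
      exact ⟨y, hy⟩
    exact LinearMap.range_eq_top.1 hrange
  obtain ⟨g, hg⟩ : ∃ g : V ≃ₗ[ℂ] V, ∀ x, g x = lin w x :=
    ⟨LinearEquiv.ofBijective (lin w) ⟨hinj, hsurj⟩, fun x => rfl⟩
  refine ⟨g, ⟨N, ?_, ?_⟩, ?_, ?_⟩
  · intro i hi
    rw [hg, lin_ee, hw]
    simp only
    rw [if_neg (by omega), if_neg (by omega)]
  · intro i hi j hj
    rw [hg, lin_ee]
    exact hlow i hi j hj
  · intro x y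
    rw [hg, hg]
    exact hpres x y
  · intro i hi
    rw [hg, lin_ee, hw]
    simp only
    rw [if_pos hi]

end

end MP50e386
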