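import Mathlib
import Pool.Agent.Lib.MP_50e386_al.Witt

/-!
Stable ideals contain powers of determinants.
-/

namespace MP50e386

open MvPolynomial Module

section

variable {π : ℕ → ℕ} {σ : ℕ → ℂ} {ε : ℂ}

/-- stability under finitary isometries -/
def Stab (π : ℕ → ℕ) (σ : ℕ → ℂ) (J : Ideal A) : Prop :=
  ∀ g : V ≃ₗ[ℂ] V, Finitary g → (∀ x y, frm π σ (g x) (g y) = frm π σ x y) →
    ∀ f ∈ J, sub (fun i => g (ee i)) f ∈ J

theorem sub_mem_of_gram (h : GData π σ ε) (hstep : ∀ N, TwoStep (FN π σ N) (gam π σ))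
    {J : Ideal A} (hJ : Stab π σ J) {n : ℕ} (hn : Even n) {f : A} (hf : f ∈ J) (hfn : Lev n f)
    (u : ℕ → V) (hu : ∀ i < n, ∀ j < n, frm π σ (u i) (u j) = gam π σ i j) : sub u f ∈ J := by
  obtain ⟨g, hg1, hg2, hg3⟩ := witt h hstep hn u hu
  rw [← sub_congr hfn (fun i => g (ee i)) u hg3]
  exact hJ g hg1 hg2 f hf

/-- the isotropic specialisation -/
theorem isotropic_mem (h : GData π σ ε) (hstep : ∀ N, TwoStep (FN π σ N) (gam π σ))
    {J : Ideal A} (hJ : Stab π σ J) {n : ℕ} (hn : Even n) {f : A} (hf : f ∈ J) (hfn : Lev n f)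
    (w : ℕ → V) (hw : ∀ i < n, ∀ j < n, frm π σ (w i) (w j) = 0) :
    sub w (homogeneousComponent f.totalDegree f) ∈ J := by
  classical
  obtain ⟨N, hN, hwN⟩ : ∃ N, Even N ∧ ∀ i < n, ∀ j, N ≤ j → w i j = 0 := by
    set S : Finset ℕ := (Finset.range n).biUnion (fun i => (w i).support) with hS
    refine ⟨2 * (S.sup id + 1), even_two_mul _, ?_⟩
    intro i hi j hj
    by_contra hne
    have h1 : j ∈ S := by
      rw [hS, Finset.mem_biUnion]
      exact ⟨i, Finset.mem_range.2 hi, Finsupp.mem_support_iff.2 hne⟩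
    have h2 := Finset.le_sup (f := id) h1
    simp only [id] at h2
    omega
  apply top_mem J f w (fun i => ee (i + N))
  intro t _
  apply sub_mem_of_gram h hstep hJ hn hf hfn
  intro i hi j hj
  have e1 : frm π σ (w i) (ee (j + N)) = 0 := by
    rw [frm_ee_right h, hwN i hi _ ?_]
    · simp
    · by_contra hcon
      have := pi_lt h hN (i := π (j + N)) (by omega)
      rw [h.inv] at this
      omega
  have e2 : frm π σ (ee (i + N)) (w j) = 0 := by
    have e3 : frm π σ (w j) (ee (i + N)) = 0 := by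
      rw [frm_ee_right h, hwN j hj _ ?_]
      · simp
      · by_contra hcon
        have := pi_lt h hN (i := π (i + N)) (by omega)
        rw [h.inv] at this
        omega
    rw [frm_refl_eps h, e3, mul_zero]
  simp only [map_add, map_smul, LinearMap.add_apply, LinearMap.smul_apply, hw i hi j hj, e1, e2,
    frm_ee, gam_shift' h hN, smul_zero, zero_add]

/-- evaluation at `c` times the identity matrix -/
noncomputable def evO (c : ℂ) : A →ₐ[ℂ] ℂ :=
  aeval (fun s => Sym2.lift ⟨fun i j => if i = j then c else 0, fun i j => by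
    simp only [eq_comm]⟩ s)

theorem exists_level (J : Ideal A) (hJ : ∀ c : ℂ, c ≠ 0 → ∃ f ∈ J, evO c f ≠ 0) :
    ∃ n, ∀ c : ℂ, c ≠ 0 → ∃ f ∈ J, Lev n f ∧ evO c f ≠ 0 := by
  classical
  choose! F hFJ hF using hJ
  have h1 : (1 : ℂ) ≠ 0 := one_ne_zero
  set P : Polynomial ℂ := aeval (fun s => Sym2.lift ⟨fun i j =>
    if i = j then (Polynomial.X : Polynomial ℂ) else 0, fun i j => by
    simp only [eq_comm]⟩ s) (F 1) with hP
  have hPe : ∀ c : ℂ, P.eval c = evO c (F 1) := by
    intro c
    have : ((Polynomial.aeval c : Polynomial ℂ →ₐ[ℂ] ℂ)).comp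
        (aeval (fun s => Sym2.lift ⟨fun i j =>
          if i = j then (Polynomial.X : Polynomial ℂ) else 0, fun i j => by
          simp only [eq_comm]⟩ s)) = evO c := by
      apply MvPolynomial.algHom_ext
      intro s
      induction s using Sym2.ind with
      | _ i j =>
        rw [AlgHom.comp_apply]
        unfold evO
        rw [aeval_X, aeval_X, Sym2.lift_mk, Sym2.lift_mk]
        change (Polynomial.aeval c) (if i = j then (Polynomial.X : Polynomial ℂ) else 0) =
          if i = j then c else 0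
        split_ifs
        · simp
        · simp
    rw [← this, AlgHom.comp_apply, Polynomial.coe_aeval_eq_eval]
  have hP0 : P ≠ 0 := by
    intro h0
    apply hF 1 h1
    rw [← hPe, h0, Polynomial.eval_zero]
  choose lev hlev using exists_lev
  refine ⟨lev (F 1) + ∑ c ∈ P.roots.toFinset, lev (F c), ?_⟩
  intro c hc
  by_cases hr : evO c (F 1) = 0
  · refine ⟨F c, hFJ c hc, (hlev (F c)).mono ?_, hF c hc⟩
    have hmem : c ∈ P.roots.toFinset := by
      rw [Multiset.mem_toFinset, Polynomial.mem_roots hP0, Polynomial.IsRoot, hPe, hr]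
    have := Finset.single_le_sum (f := fun c => lev (F c)) (fun _ _ => Nat.zero_le _) hmem
    omega
  · exact ⟨F 1, hFJ 1 h1, (hlev (F 1)).mono (by omega), hr⟩

/-- factorisation of symmetric matrices -/
theorem symm_factor (n : ℕ) (Y : Matrix (Fin n) (Fin n) ℂ) (hY : Y.IsSymm) :
    ∃ P : Matrix (Fin n) (Fin n) ℂ, P.transpose * P = Y := by
  classical
  set B : LinearMap.BilinForm ℂ (Fin n → ℂ) := Matrix.toBilin' Y with hB
  have hBs : B.IsSymm := by
    constructor
    intro x y
    rw [hB, Matrix.toBilin'_apply, Matrix.toBilin'_apply, Finset.sum_comm]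
    apply Finset.sum_congr rfl
    intro i _
    apply Finset.sum_congr rfl
    intro j _
    rw [← hY.apply i j]
    ring
  obtain ⟨v, hv⟩ := LinearMap.BilinForm.exists_orthogonal_basis (LinearMap.BilinForm.isSymm_iff.1 hBs)
  have hfr : finrank ℂ (Fin n → ℂ) = n := Module.finrank_fin_fun ℂ
  set v' := v.reindex (finCongr hfr) with hv'
  have hv'o : ∀ i j, i ≠ j → B (v' i) (v' j) = 0 := by
    intro i j hij
    rw [hv', Basis.reindex_apply, Basis.reindex_apply]
    apply hv
    intro h
    apply hij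
    simpa using h
  choose z hz using fun k : Fin n => IsAlgClosed.exists_eq_mul_self (B (v' k) (v' k))
  refine ⟨Matrix.of fun k i => z k * v'.repr (Pi.single i 1) k, ?_⟩
  ext i j
  rw [Matrix.mul_apply]
  simp only [Matrix.transpose_apply, Matrix.of_apply]
  have h1 : Y i j = B (Pi.single i 1) (Pi.single j 1) := by
    rw [hB, Matrix.toBilin'_single]
  rw [h1]
  conv_rhs => rw [← v'.sum_repr (Pi.single i 1), ← v'.sum_repr (Pi.single j 1)]
  rw [LinearMap.map_sum₂]
  apply Finset.sum_congr rfl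
  intro k _
  rw [map_sum, Finset.sum_eq_single k]
  · rw [map_smul, map_smul, LinearMap.smul_apply, hz k, smul_eq_mul, smul_eq_mul]
    ring
  · intro l _ hl
    rw [map_smul, map_smul, LinearMap.smul_apply, hv'o k l (Ne.symm hl), smul_zero, smul_zero]
  · intro hk
    exact absurd (Finset.mem_univ _) hk

/-- finite level polynomial ring -/
abbrev AM (M : ℕ) := MvPolynomial (Sym2 (Fin M)) ℂ

/-- inclusion of the finite level -/
noncomputable def iot (M : ℕ) : AM M →ₐ[ℂ] A := rename (Sym2.map (Fin.val : Fin M → ℕ))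

/-- finite level symmetric bilinear map -/
noncomputable def bilM (M : ℕ) (x y : Fin M → ℂ) : AM M :=
  ∑ i, ∑ j, (x i * y j) • X s(i, j)

theorem bilM_comm (M : ℕ) (x y : Fin M → ℂ) : bilM M x y = bilM M y x := by
  unfold bilM
  rw [Finset.sum_comm]
  apply Finset.sum_congr rfl
  intro i _
  apply Finset.sum_congr rfl
  intro j _
  rw [mul_comm, Sym2.eq_swap]

theorem iot_bilM (M : ℕ) (x y : Fin M → ℂ) : iot M (bilM M x y) = bil (jN M x) (jN M y) := by
  unfold bilM jN
  rw [Fintype.linearCombination_apply, Fintype.linearCombination_apply, map_sum,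
    LinearMap.map_sum₂]
  apply Finset.sum_congr rfl
  intro i _
  rw [map_sum, map_sum]
  apply Finset.sum_congr rfl
  intro j _
  rw [map_smul, map_smul, map_smul, LinearMap.smul_apply, bil_ee, smul_smul, mul_comm (y j)]
  congr 1
  unfold iot
  rw [rename_X, Sym2.map_mk]

/-- finite level substitution -/
noncomputable def subM (M : ℕ) (v : ℕ → Fin M → ℂ) : A →ₐ[ℂ] AM M :=
  aeval (fun s => Sym2.lift ⟨fun i j => bilM M (v i) (v j), fun i j => bilM_comm _ _ _⟩ s)

theorem iot_subM (M : ℕ) (v : ℕ → Fin M → ℂ) (f : A) :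
    iot M (subM M v f) = sub (fun i => jN M (v i)) f := by
  have : (iot M).comp (subM M v) = sub (fun i => jN M (v i)) := by
    apply MvPolynomial.algHom_ext
    intro s
    induction s using Sym2.ind with
    | _ i j =>
      rw [AlgHom.comp_apply, sub_X]
      unfold subM
      rw [aeval_X, Sym2.lift_mk, iot_bilM]
  exact congrArg (fun g : A →ₐ[ℂ] A => g f) this

/-- quadratic form matrix of a point -/
noncomputable def qm {M : ℕ} (q : Sym2 (Fin M) → ℂ) : Matrix (Fin M) (Fin M) ℂ :=
  Matrix.of fun i j => q s(i, j)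

theorem aeval_bilM {M : ℕ} (q : Sym2 (Fin M) → ℂ) (x y : Fin M → ℂ) :
    aeval q (bilM M x y) = Matrix.toBilin' (qm q) x y := by
  unfold bilM
  rw [Matrix.toBilin'_apply, map_sum]
  apply Finset.sum_congr rfl
  intro i _
  rw [map_sum]
  apply Finset.sum_congr rfl
  intro j _
  rw [map_smul, aeval_X, qm, Matrix.of_apply, smul_eq_mul]
  ring

theorem aeval_subM {M : ℕ} (q : Sym2 (Fin M) → ℂ) (v : ℕ → Fin M → ℂ) (f : A)
    (Y : Sym2 ℕ → ℂ) {n : ℕ} (hf : Lev n f)
    (hY : ∀ i < n, ∀ j < n, Matrix.toBilin' (qm q) (v i) (v j) = Y s(i, j)) :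
    aeval q (subM M v f) = aeval Y f := by
  have : (aeval q : AM M →ₐ[ℂ] ℂ).comp (subM M v) = aeval (fun s => aeval q
      (Sym2.lift ⟨fun i j => bilM M (v i) (v j), fun i j => bilM_comm _ _ _⟩ s)) := by
    apply MvPolynomial.algHom_ext
    intro s
    rw [AlgHom.comp_apply]
    unfold subM
    rw [aeval_X, aeval_X]
  have h2 := congrArg (fun g : A →ₐ[ℂ] ℂ => g f) this
  simp only [AlgHom.comp_apply] at h2
  rw [h2]
  apply aeval_congr_lev hf
  intro i hi j hj
  rw [Sym2.lift_mk, aeval_bilM, hY i hi j hj]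

/-- generic determinant at finite level -/
noncomputable def detM (M : ℕ) : AM M := Matrix.det (Matrix.of fun i j : Fin M => (X s(i, j) : AM M))

theorem iot_detM (M : ℕ) : iot M (detM M) =
    Matrix.det (Matrix.of fun i j : Fin M => bil (ee (i : ℕ)) (ee (j : ℕ))) := by
  unfold detM
  rw [AlgHom.map_det]
  congr 1
  ext i j : 2
  simp only [AlgHom.mapMatrix_apply, Matrix.map_apply, Matrix.of_apply]
  unfold iot
  rw [rename_X, Sym2.map_mk, bil_ee]

theorem aeval_detM {M : ℕ} (q : Sym2 (Fin M) → ℂ) : aeval q (detM M) = (qm q).det := by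
  unfold detM
  rw [AlgHom.map_det]
  congr 1
  ext i j
  simp only [AlgHom.mapMatrix_apply, Matrix.map_apply, Matrix.of_apply, aeval_X, qm]

theorem qm_symm {M : ℕ} (q : Sym2 (Fin M) → ℂ) : (Matrix.toBilin' (qm q)).IsSymm := by
  constructor
  intro x y
  rw [Matrix.toBilin'_apply, Matrix.toBilin'_apply, Finset.sum_comm]
  apply Finset.sum_congr rfl
  intro i _
  apply Finset.sum_congr rfl
  intro j _
  simp only [qm, Matrix.of_apply]
  rw [Sym2.eq_swap]
  ring

theorem det_pow_mem (h : GData π σ ε) (hstep : ∀ N, TwoStep (FN π σ N) (gam π σ))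
    (O : Prop) (hO : O → ∀ i j, gam π σ i j = if i = j then 1 else 0)
    (hcone : ∀ N, Even N → ∀ q : LinearMap.BilinForm ℂ (Fin N → ℂ), q.IsSymm →
      ∀ S : Submodule ℂ (Fin N → ℂ), finrank ℂ (radS (FN π σ N) S) + 2 ≤ finrank ℂ S →
      (∀ x ∈ S, FN π σ N x x = 0 → q x x = 0) →
      ∃ c : ℂ, (∀ x ∈ S, ∀ y ∈ S, q x y = c * FN π σ N x y) ∧ (c ≠ 0 → O))
    {J : Ideal A} (hJ : Stab π σ J) (hJ0 : J ≠ ⊥)
    (hJO : O → ∀ c : ℂ, c ≠ 0 → ∃ f ∈ J, evO c f ≠ 0) :
    ∃ M N0 : ℕ, Even M ∧
      (Matrix.det (Matrix.of fun i j : Fin M => bil (ee (i : ℕ)) (ee (j : ℕ)))) ^ N0 ∈ J := by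
  classical
  obtain ⟨f, hfJ, hf0⟩ := Submodule.exists_mem_ne_zero_of_ne_bot hJ0
  obtain ⟨n0, hn0⟩ := exists_lev f
  set n := 2 * n0 with hn
  have hne : Even n := even_two_mul _
  have hfn : Lev n f := hn0.mono (by omega)
  set T := homogeneousComponent f.totalDegree f with hT
  have hT0 : T ≠ 0 := by
    intro h0
    have h1 : f.totalDegree ∈ f.support.image (fun d => d.sum fun _ => id) ∨ True := Or.inr trivial
    clear h1
    have h2 : f.support.Nonempty := MvPolynomial.support_nonempty.2 hf0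
    obtain ⟨d, hd, hdeg⟩ := Finset.exists_mem_eq_sup f.support h2 (fun s => s.sum fun _ e => e)
    have h3 : coeff d T = coeff d f := by
      rw [hT, coeff_homogeneousComponent, if_pos]
      rw [MvPolynomial.totalDegree, hdeg]
      rfl
    rw [h0, coeff_zero] at h3
    exact (mem_support_iff.1 hd) h3.symm
  have hTn : Lev n T := hfn.homogeneousComponent _
  -- level for the scalar forms
  obtain ⟨n1, hn1e, hn1⟩ : ∃ n1, Even n1 ∧ (O → ∀ c : ℂ, c ≠ 0 →
      ∃ f ∈ J, Lev n1 f ∧ evO c f ≠ 0) := by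
    by_cases hOO : O
    · obtain ⟨m, hm⟩ := exists_level J (hJO hOO)
      refine ⟨2 * m, even_two_mul _, fun _ c hc => ?_⟩
      obtain ⟨f, h1, h2, h3⟩ := hm c hc
      exact ⟨f, h1, h2.mono (by omega), h3⟩
    · exact ⟨0, Even.zero, fun h => absurd h hOO⟩
  set M := 4 * n + n1 + 2 with hM
  have hMe : Even M := by
    obtain ⟨a, ha⟩ := hn1e
    exact ⟨2 * n + a + 1, by omega⟩
  set JM : Ideal (AM M) := J.comap (iot M) with hJM
  have hrad : detM M ∈ JM.radical := by
    rw [← MvPolynomial.vanishingIdeal_zeroLocus_eq_radical (k := ℂ) (K := ℂ),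
      MvPolynomial.mem_vanishingIdeal_iff]
    intro q hq
    rw [MvPolynomial.mem_zeroLocus_iff] at hq
    by_contra hdet
    rw [aeval_detM] at hdet
    set Q := Matrix.toBilin' (qm q) with hQ
    have hQnd : Q.Nondegenerate :=
      LinearMap.BilinForm.nondegenerate_toBilin'_of_det_ne_zero' _ hdet
    have hQs : Q.IsSymm := qm_symm q
    have hQs' : ∀ x y, Q x y = Q y x := fun x y => hQs.eq x y
    have hfr : finrank ℂ (Fin M → ℂ) = M := Module.finrank_fin_fun ℂ
    rcases iso_greedy (FN π σ M) (FN_isRefl h M) Q hQs n with ⟨w, hw⟩ | ⟨S, hS, hSq⟩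
    · -- enough isotropic vectors: `T` vanishes identically
      apply hT0
      apply MvPolynomial.funext
      intro Y
      rw [map_zero]
      obtain ⟨P, hP⟩ := symm_factor n (Matrix.of fun i j : Fin n => Y s((i : ℕ), (j : ℕ))) (by
        ext i j
        simp only [Matrix.transpose_apply, Matrix.of_apply]
        rw [Sym2.eq_swap])
      set v : ℕ → Fin M → ℂ := fun i => if hi : i < n then ∑ k : Fin n, P k ⟨i, hi⟩ • w k else 0
        with hv
      have hvF : ∀ i < n, ∀ j < n, FN π σ M (v i) (v j) = 0 := by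
        intro i hi j hj
        simp only [hv, hi, hj, dif_pos]
        rw [LinearMap.map_sum₂]
        apply Finset.sum_eq_zero
        intro k _
        rw [map_sum]
        apply Finset.sum_eq_zero
        intro l _
        rw [map_smul, map_smul, LinearMap.smul_apply, (hw k k.2 l l.2).1]
        simp
      have hvQ : ∀ i < n, ∀ j < n, Q (v i) (v j) = Y s(i, j) := by
        intro i hi j hj
        have h1 := congrArg (fun Z : Matrix (Fin n) (Fin n) ℂ => Z ⟨i, hi⟩ ⟨j, hj⟩) hP
        simp only [Matrix.mul_apply, Matrix.transpose_apply, Matrix.of_apply] at h1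
        simp only [hv, hi, hj, dif_pos]
        rw [LinearMap.map_sum₂, ← h1]
        apply Finset.sum_congr rfl
        intro k _
        rw [map_sum, Finset.sum_eq_single k]
        · rw [map_smul, map_smul, LinearMap.smul_apply, (hw k k.2 k k.2).2, if_pos rfl]
          simp only [smul_eq_mul]
          ring
        · intro l _ hl
          have hkl : (k : ℕ) ≠ (l : ℕ) := fun h' => hl (Fin.ext h'.symm)
          rw [map_smul, map_smul, LinearMap.smul_apply, (hw k k.2 l l.2).2, if_neg hkl]
          simp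
        · intro hk
          exact absurd (Finset.mem_univ _) hk
      have hmem : subM M v T ∈ JM := by
        rw [hJM, Ideal.mem_comap, iot_subM]
        exact isotropic_mem h hstep hJ hne hfJ hfn _ hvF
      have h2 := hq _ hmem
      rw [aeval_subM q v T Y hTn hvQ] at h2
      rw [← MvPolynomial.aeval_eq_eval]
      exact h2
    · -- scalar on a large subspace
      rw [hfr] at hS
      have hrb := finrank_radS_le (FN π σ M) (FN_nondeg h hMe) (FN_isRefl h M) S
      rw [hfr] at hrb
      obtain ⟨c, hc1, hc2⟩ := hcone M hMe Q hQs S (by omega) hSq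
      by_cases hc : c = 0
      · have h1 : S ≤ Q.orthogonal S := by
          intro x hx
          rw [LinearMap.BilinForm.mem_orthogonal_iff]
          intro y hy
          change Q y x = 0
          rw [hc1 y hy x hx, hc, zero_mul]
        have h2 := Submodule.finrank_mono h1
        rw [LinearMap.BilinForm.finrank_orthogonal hQnd, hfr] at h2
        omega
      · have hOO := hc2 hc
        obtain ⟨g, hgJ, hgn, hg0⟩ := hn1 hOO c hc
        obtain ⟨l, hl⟩ : ∃ l, n1 = 2 * l := by
          obtain ⟨a, ha⟩ := hn1e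
          exact ⟨a, by omega⟩
        obtain ⟨b, hbS, hbb⟩ := exists_gram (FN π σ M) (FN_isRefl h M) (gam π σ) (gam_shift h)
          (fun i j hi hj => gam_zero_left h even_two hi hj)
          (fun i j hi hj => gam_zero_right h even_two hi hj) (gam_D h) (hstep M) l S (by omega)
        have hmem : subM M b g ∈ JM := by
          rw [hJM, Ideal.mem_comap, iot_subM]
          apply sub_mem_of_gram h hstep hJ hn1e hgJ hgn
          intro i hi j hj
          exact hbb i (by omega) j (by omega)
        have h2 := hq _ hmem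
        rw [aeval_subM q b g (fun s => Sym2.lift ⟨fun i j => if i = j then c else 0, fun i j => by
          simp only [eq_comm]⟩ s) hgn ?_] at h2
        · exact hg0 h2
        · intro i hi j hj
          change Q (b i) (b j) = if i = j then c else 0
          rw [hc1 _ (hbS i (by omega)) _ (hbS j (by omega)), hbb i (by omega) j (by omega),
            hO hOO]
          split_ifs <;> simp
  obtain ⟨N0, hN0⟩ := hrad
  refine ⟨M, N0, hMe, ?_⟩
  rw [hJM, Ideal.mem_comap, map_pow, iot_detM] at hN0
  exact hN0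

theorem sub_det (w : ℕ → V) {M : ℕ} (N0 : ℕ) (u : Fin M → V) :
    sub w ((Matrix.det (Matrix.of fun i j : Fin M => bil (u i) (u j))) ^ N0) =
      (Matrix.det (Matrix.of fun i j : Fin M => bil (lin w (u i)) (lin w (u j)))) ^ N0 := by
  rw [map_pow, AlgHom.map_det]
  congr 2
  ext i j : 2
  simp only [AlgHom.mapMatrix_apply, Matrix.map_apply, Matrix.of_apply, sub_bil]

/-- standard Gram matrix as a matrix -/
noncomputable def gmat (π : ℕ → ℕ) (σ : ℕ → ℂ) (M : ℕ) : Matrix (Fin M) (Fin M) ℂ :=
  Matrix.of fun i j => gam π σ i j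

theorem gmat_det (h : GData π σ ε) {M : ℕ} (hM : Even M) : (gmat π σ M).det ≠ 0 := by
  intro hdet
  obtain ⟨v, hv0, hv⟩ := Matrix.exists_mulVec_eq_zero_iff.2 hdet
  apply hv0
  funext j
  have hj : π j < M := pi_lt h hM j.2
  have h1 := congrFun hv ⟨π j, hj⟩
  rw [Matrix.mulVec, dotProduct, Finset.sum_eq_single j] at h1
  · simp only [gmat, Matrix.of_apply, gam, h.inv, if_true, Pi.zero_apply] at h1
    exact (mul_eq_zero.1 h1).resolve_left (h.sne _)
  · intro l _ hl
    have : (l : ℕ) ≠ π (π j) := by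
      rw [h.inv]
      exact fun h' => hl (Fin.ext h')
    simp only [gmat, Matrix.of_apply, gam]
    rw [if_neg this, zero_mul]
  · intro hk
    exact absurd (Finset.mem_univ _) hk

theorem exists_common_level {M : ℕ} (u : Fin M → V) :
    ∃ N, Even N ∧ ∀ i, ∀ j, N ≤ j → u i j = 0 := by
  classical
  set S : Finset ℕ := Finset.univ.biUnion (fun i => (u i).support) with hS
  refine ⟨2 * (S.sup id + 1), even_two_mul _, ?_⟩
  intro i j hj
  by_contra hne
  have h1 : j ∈ S := by
    rw [hS, Finset.mem_biUnion]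
    exact ⟨i, Finset.mem_univ _, Finsupp.mem_support_iff.2 hne⟩
  have h2 := Finset.le_sup (f := id) h1
  simp only [id] at h2
  omega

/-- D1: tuples with the standard Gram matrix -/
theorem det_mem_of_gram (h : GData π σ ε) (hstep : ∀ N, TwoStep (FN π σ N) (gam π σ))
    {J : Ideal A} (hJ : Stab π σ J) {M N0 : ℕ} (hM : Even M)
    (h0 : (Matrix.det (Matrix.of fun i j : Fin M => bil (ee (i : ℕ)) (ee (j : ℕ)))) ^ N0 ∈ J)
    (u : Fin M → V) (hu : ∀ i j : Fin M, frm π σ (u i) (u j) = gam π σ i j) :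
    (Matrix.det (Matrix.of fun i j : Fin M => bil (u i) (u j))) ^ N0 ∈ J := by
  obtain ⟨g, hg1, hg2, hg3⟩ := witt h hstep hM (fun i => if hi : i < M then u ⟨i, hi⟩ else 0) (by
    intro i hi j hj
    simp only [hi, hj, dif_pos]
    exact hu ⟨i, hi⟩ ⟨j, hj⟩)
  have h1 := hJ g hg1 hg2 _ h0
  rw [sub_det] at h1
  have h2 : (fun i j : Fin M => bil (lin (fun i => g (ee i)) (ee (i : ℕ)))
      (lin (fun i => g (ee i)) (ee (j : ℕ)))) = fun i j : Fin M => bil (u i) (u j) := by
    funext i j
    rw [lin_ee, lin_ee, hg3 i i.2, hg3 j j.2]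
    simp
  rw [h2] at h1
  exact h1

/-- D2: tuples with nondegenerate Gram matrix -/
theorem det_mem_of_nondeg (h : GData π σ ε) (hstep : ∀ N, TwoStep (FN π σ N) (gam π σ))
    {J : Ideal A} (hJ : Stab π σ J) {M N0 : ℕ} (hM : Even M)
    (h0 : (Matrix.det (Matrix.of fun i j : Fin M => bil (ee (i : ℕ)) (ee (j : ℕ)))) ^ N0 ∈ J)
    (u : Fin M → V) (hu : (Matrix.of fun i j : Fin M => frm π σ (u i) (u j)).det ≠ 0) :
    (Matrix.det (Matrix.of fun i j : Fin M => bil (u i) (u j))) ^ N0 ∈ J := by
  classical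
  set G : Matrix (Fin M) (Fin M) ℂ := Matrix.of fun i j : Fin M => frm π σ (u i) (u j) with hG
  obtain ⟨N, hN, huN⟩ := exists_common_level u
  choose u' hu' using fun i => exists_jN (huN i)
  set F := FN π σ N with hF
  set U : Submodule ℂ (Fin N → ℂ) := Submodule.span ℂ (Set.range u') with hU
  have hjsum : ∀ a : Fin M → ℂ, jN N (∑ i, a i • u' i) = ∑ i, a i • u i := by
    intro a
    rw [map_sum]
    apply Finset.sum_congr rfl
    intro i _
    rw [map_smul, hu']
  have hzero : ∀ a : Fin M → ℂ, (∀ j, F (∑ i, a i • u' i) (u' j) = 0) → a = 0 := by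
    intro a ha
    apply Matrix.eq_zero_of_vecMul_eq_zero hu
    funext j
    have h1 := ha j
    rw [hF, FN_apply, hjsum, hu', LinearMap.map_sum₂] at h1
    rw [Matrix.vecMul, dotProduct, Pi.zero_apply, ← h1]
    apply Finset.sum_congr rfl
    intro i _
    rw [map_smul, LinearMap.smul_apply, hG, Matrix.of_apply, smul_eq_mul]
  have hrad : radS F U = ⊥ := by
    rw [eq_bot_iff]
    intro x hx
    rw [mem_radS] at hx
    obtain ⟨a, ha⟩ := (Submodule.mem_span_range_iff_exists_fun ℂ).1 hx.1
    have h1 := hzero a (fun j => by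
      rw [ha]
      exact hx.2 _ (Submodule.subset_span ⟨j, rfl⟩))
    rw [← ha, h1]
    simp
  have hrank : finrank ℂ U = M := by
    have hli : LinearIndependent ℂ u' := by
      rw [Fintype.linearIndependent_iff]
      intro a ha i
      have h1 := hzero a (fun j => by rw [ha, map_zero, LinearMap.zero_apply])
      rw [h1]
      rfl
    rw [hU, finrank_span_eq_card hli, Fintype.card_fin]
  obtain ⟨l, hl⟩ : ∃ l, M = 2 * l := by
    obtain ⟨a, ha⟩ := hM
    exact ⟨a, by omega⟩
  obtain ⟨b, hbS, hbb⟩ := exists_gram F (FN_isRefl h N) (gam π σ) (gam_shift h)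
    (fun i j hi hj => gam_zero_left h even_two hi hj)
    (fun i j hi hj => gam_zero_right h even_two hi hj) (gam_D h) (hstep N) l U (by
      rw [hrad, finrank_bot]; omega)
  have hbP : ∀ i : Fin M, ∃ a : Fin M → ℂ, ∑ k, a k • u' k = b i := fun i =>
    (Submodule.mem_span_range_iff_exists_fun ℂ).1 (hbS i (by omega))
  choose P hP using hbP
  set Pm : Matrix (Fin M) (Fin M) ℂ := Matrix.of P with hPm
  have hjb : ∀ i : Fin M, jN N (b i) = ∑ k, P i k • u k := by
    intro i
    rw [← hP, hjsum]
  -- Gram matrix relation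
  have hgram : gmat π σ M = Pm * G * Pm.transpose := by
    ext i j
    have h1 := hbb i (by omega) j (by omega)
    rw [hF, FN_apply, hjb, hjb, LinearMap.map_sum₂] at h1
    rw [gmat, Matrix.of_apply, ← h1, Matrix.mul_assoc, Matrix.mul_apply]
    apply Finset.sum_congr rfl
    intro k _
    rw [map_smul, LinearMap.smul_apply, map_sum, Matrix.mul_apply, hPm, Matrix.of_apply,
      smul_eq_mul]
    congr 1
    apply Finset.sum_congr rfl
    intro m _
    rw [map_smul, hG, Matrix.of_apply, Matrix.transpose_apply, Matrix.of_apply, smul_eq_mul,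
      mul_comm]
  have hPdet : Pm.det ≠ 0 := by
    intro h1
    apply gmat_det h hM
    rw [hgram, Matrix.det_mul, Matrix.det_mul, h1]
    simp
  have h1 := det_mem_of_gram h hstep hJ hM h0 (fun i => jN N (b i)) (fun i j =>
    hbb i (by omega) j (by omega))
  have h2 : (Matrix.of fun i j : Fin M => bil (jN N (b i)) (jN N (b j))) =
      (Pm.map (C : ℂ → A)) * (Matrix.of fun i j : Fin M => bil (u i) (u j)) *
        (Pm.map (C : ℂ → A)).transpose := by
    ext1 i j
    rw [Matrix.of_apply, hjb, hjb, LinearMap.map_sum₂, Matrix.mul_assoc, Matrix.mul_apply]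
    apply Finset.sum_congr rfl
    intro k _
    rw [map_smul, LinearMap.smul_apply, map_sum, Matrix.mul_apply, hPm, Matrix.map_apply,
      Matrix.of_apply, smul_eq_C_mul]
    congr 1
    apply Finset.sum_congr rfl
    intro m _
    rw [map_smul, Matrix.of_apply, Matrix.transpose_apply, Matrix.map_apply, Matrix.of_apply,
      smul_eq_C_mul, mul_comm]
  rw [h2, Matrix.det_mul, Matrix.det_mul, Matrix.det_transpose] at h1
  have h3 : (Pm.map (C : ℂ → A)).det = C Pm.det := by
    rw [RingHom.map_det]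
    rfl
  rw [h3] at h1
  have h4 := J.mul_mem_left (C ((Pm.det⁻¹) ^ (2 * N0))) h1
  have h5 : C ((Pm.det⁻¹) ^ (2 * N0)) * (C Pm.det * (Matrix.of fun i j : Fin M =>
      bil (u i) (u j)).det * C Pm.det) ^ N0 =
      (Matrix.det (Matrix.of fun i j : Fin M => bil (u i) (u j))) ^ N0 := by
    have h6 : (C ((Pm.det⁻¹) ^ (2 * N0)) : A) * (C Pm.det * C Pm.det) ^ N0 = 1 := by
      rw [← C_mul, ← C_pow, ← C_mul, ← C_1]
      congr 1
      rw [pow_mul, ← mul_pow]
      have : Pm.det⁻¹ ^ 2 * (Pm.det * Pm.det) = 1 := by field_simp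
      rw [this, one_pow]
    calc _ = (C ((Pm.det⁻¹) ^ (2 * N0)) * (C Pm.det * C Pm.det) ^ N0) *
        ((Matrix.of fun i j : Fin M => bil (u i) (u j)).det) ^ N0 := by
          simp only [mul_pow]
          ring
      _ = _ := by rw [h6, one_mul]
  rw [h5] at h4
  exact h4

/-- D3: all tuples -/
theorem det_all_mem (h : GData π σ ε) (hstep : ∀ N, TwoStep (FN π σ N) (gam π σ))
    {J : Ideal A} (hJ : Stab π σ J) {M N0 : ℕ} (hM : Even M)
    (h0 : (Matrix.det (Matrix.of fun i j : Fin M => bil (ee (i : ℕ)) (ee (j : ℕ)))) ^ N0 ∈ J)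
    (u : Fin M → V) :
    (Matrix.det (Matrix.of fun i j : Fin M => bil (u i) (u j))) ^ N0 ∈ J := by
  classical
  obtain ⟨N, hN, huN⟩ := exists_common_level u
  set c : Fin M → V := fun i => ee ((i : ℕ) + N) with hc
  set G : Matrix (Fin M) (Fin M) ℂ := Matrix.of fun i j : Fin M => frm π σ (u i) (u j) with hG
  have huc : ∀ i j, frm π σ (u i) (c j) = 0 := by
    intro i j
    rw [hc, frm_ee_right h, huN i _ ?_]
    · simp
    · by_contra hcon
      have := pi_lt h hN (i := π ((j : ℕ) + N)) (by omega)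
      rw [h.inv] at this
      omega
  have hcu : ∀ i j, frm π σ (c i) (u j) = 0 := by
    intro i j
    rw [frm_refl_eps h, huc, mul_zero]
  have hgr : ∀ s : ℂ, (Matrix.of fun i j : Fin M => frm π σ (u i + s • c i) (u j + s • c j)) =
      G + (s ^ 2) • gmat π σ M := by
    intro s
    ext i j
    rw [Matrix.of_apply, Matrix.add_apply, Matrix.smul_apply, hG, Matrix.of_apply, gmat,
      Matrix.of_apply]
    simp only [map_add, map_smul, LinearMap.add_apply, LinearMap.smul_apply, huc, hcu, smul_zero,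
      add_zero, zero_add, smul_eq_mul]
    rw [hc, frm_ee, gam_shift' h hN]
    ring
  set Γ := gmat π σ M with hΓ
  have hΓdet : Γ.det ≠ 0 := gmat_det h hM
  have hΓu : IsUnit Γ.det := isUnit_iff_ne_zero.2 hΓdet
  set K : Matrix (Fin M) (Fin M) ℂ := -(Γ⁻¹ * G) with hK
  set T : Set ℂ := {s | (K.charpoly.comp (Polynomial.X ^ 2)).eval s ≠ 0} with hT
  have hTinf : T.Infinite := by
    have h1 : (K.charpoly.comp (Polynomial.X ^ 2)) ≠ 0 := by
      apply Polynomial.Monic.ne_zero
      apply Polynomial.Monic.comp (Matrix.charpoly_monic K) (Polynomial.monic_X_pow 2)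
      rw [Polynomial.natDegree_X_pow]
      norm_num
    have h2 : Tᶜ.Finite := by
      apply Set.Finite.subset (Polynomial.finite_setOf_isRoot h1)
      intro s hs
      simp only [hT, Set.mem_compl_iff, Set.mem_setOf_eq, not_not] at hs
      exact hs
    have h3 := h2.infinite_compl
    rwa [compl_compl] at h3
  have hTdet : ∀ s ∈ T, (G + (s ^ 2) • Γ).det ≠ 0 := by
    intro s hs
    have h1 : G + (s ^ 2) • Γ = Γ * (Matrix.scalar (Fin M) (s ^ 2) - K) := by
      rw [hK, sub_neg_eq_add, Matrix.mul_add, ← Matrix.mul_assoc, Matrix.mul_nonsing_inv _ hΓu,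
        Matrix.one_mul, add_comm]
      congr 1
      ext i j
      simp [Matrix.mul_diagonal, mul_comm]
    rw [h1, Matrix.det_mul]
    apply mul_ne_zero hΓdet
    rw [← Matrix.eval_charpoly]
    have h2 : (K.charpoly.comp (Polynomial.X ^ 2)).eval s ≠ 0 := hs
    rw [Polynomial.eval_comp, Polynomial.eval_pow, Polynomial.eval_X] at h2
    exact h2
  -- the polynomial family
  set R : Polynomial A := (Matrix.det (Matrix.of fun i j : Fin M =>
    (Polynomial.C (bil (u i) (u j)) + Polynomial.X * Polynomial.C (bil (u i) (c j) +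
      bil (c i) (u j)) + Polynomial.X ^ 2 * Polynomial.C (bil (c i) (c j)) : Polynomial A))) ^ N0
    with hR
  have hReval : ∀ s : ℂ, R.eval (algebraMap ℂ A s) =
      (Matrix.det (Matrix.of fun i j : Fin M => bil (u i + s • c i) (u j + s • c j))) ^ N0 := by
    intro s
    rw [hR, Polynomial.eval_pow]
    congr 1
    have h1 := RingHom.map_det (Polynomial.evalRingHom (algebraMap ℂ A s))
      (Matrix.of fun i j : Fin M =>
      (Polynomial.C (bil (u i) (u j)) + Polynomial.X * Polynomial.C (bil (u i) (c j) +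
      bil (c i) (u j)) + Polynomial.X ^ 2 * Polynomial.C (bil (c i) (c j)) : Polynomial A))
    rw [Polynomial.coe_evalRingHom] at h1
    rw [h1]
    congr 1
    ext1 i j
    simp only [RingHom.mapMatrix_apply, Matrix.map_apply, Matrix.of_apply,
      Polynomial.coe_evalRingHom, Polynomial.eval_add, Polynomial.eval_mul, Polynomial.eval_pow,
      Polynomial.eval_X, Polynomial.eval_C, map_add, map_smul, LinearMap.add_apply,
      LinearMap.smul_apply, Algebra.smul_def]
    ring
  have hcoef := coeff_mem_of_infinite (J.restrictScalars ℂ) R T hTinf (by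
    intro s hs
    rw [hReval]
    apply det_mem_of_nondeg h hstep hJ hM h0
    rw [hgr]
    exact hTdet s hs) 0
  rw [Polynomial.coeff_zero_eq_eval_zero] at hcoef
  have h9 := hReval 0
  rw [map_zero] at h9
  rw [h9] at hcoef
  have h10 : (fun i j : Fin M => bil (u i + (0 : ℂ) • c i) (u j + (0 : ℂ) • c j)) =
      fun i j : Fin M => bil (u i) (u j) := by
    funext i j
    rw [zero_smul, zero_smul, add_zero, add_zero]
  rw [h10] at hcoef
  exact hcoef

end

end MP50e386
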