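import Mathlib
import Pool.Agent.Lib.MP_50e386_al.Main
import Pool.Agent.Lib.MP_50e386_al.Defs

/-!
From the definitions in the statements to the working definitions.
-/

namespace MP50e386

open MvPolynomial Module Pool.Agent.Lib.MP50e386

theorem prodV_eq (u v : V) : prodV u v = bil u v := by
  unfold prodV bil
  rw [Finsupp.linearCombination_apply, Finsupp.sum, Finsupp.sum, LinearMap.sum_apply]
  apply Finset.sum_congr rfl
  intro i _
  rw [LinearMap.smul_apply, Finsupp.linearCombination_apply, Finsupp.sum, Finsupp.sum,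
    Finset.smul_sum]
  apply Finset.sum_congr rfl
  intro j _
  rw [smul_smul, smul_eq_C_mul]

theorem act_eq (g : V ≃ₗ[ℂ] V) : act g = sub (fun i => g (ee i)) := by
  apply MvPolynomial.algHom_ext
  intro s
  induction s using Sym2.ind with
  | _ i j =>
    rw [sub_X]
    unfold act
    rw [aeval_X, Sym2.lift_mk, ← prodV_eq]

theorem frm_sum (π : ℕ → ℕ) (σ : ℕ → ℂ) (x y : V) :
    frm π σ x y = x.sum fun i a => a * (σ i * y (π i)) := by
  have h1 : x = x.sum fun i a => a • ee i := by
    conv_lhs => rw [← Finsupp.sum_single x]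
    apply Finsupp.sum_congr
    intro i _
    rw [ee, Finsupp.smul_single, smul_eq_mul, mul_one]
  conv_lhs => rw [h1]
  rw [Finsupp.sum, LinearMap.map_sum₂]
  apply Finset.sum_congr rfl
  intro i _
  rw [map_smul, LinearMap.smul_apply, frm_ee_left, smul_eq_mul]

/-- symplectic pairing involution -/
def pis (i : ℕ) : ℕ := if Even i then i + 1 else i - 1

/-- symplectic sign -/
noncomputable def sis (i : ℕ) : ℂ := if Even i then 1 else -1

theorem gdata_sp : GData pis sis (-1) where
  inv i := by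
    unfold pis
    by_cases h : Even i
    · rw [if_pos h, if_neg (by rw [Nat.even_add_one, not_not]; exact h)]
      omega
    · rw [if_neg h]
      have h1 : i ≠ 0 := by rintro rfl; exact h Even.zero
      have h2 : Even (i - 1) := by
        rw [Nat.not_even_iff_odd] at h
        obtain ⟨k, hk⟩ := h
        exact ⟨k, by omega⟩
      rw [if_pos h2]
      omega
  shift i := by
    unfold pis
    have h2 : Even (i + 2) ↔ Even i := by
      rw [Nat.even_add]; simp
    by_cases h : Even i
    · rw [if_pos h, if_pos (h2.2 h)]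
    · rw [if_neg h, if_neg (fun h' => h (h2.1 h'))]
      have h1 : i ≠ 0 := by rintro rfl; exact h Even.zero
      omega
  small0 := by unfold pis; simp
  small1 := by unfold pis; simp
  sne i := by
    unfold sis
    split_ifs
    · exact one_ne_zero
    · exact neg_ne_zero.2 one_ne_zero
  sshift i := by
    unfold sis
    have h2 : Even (i + 2) ↔ Even i := by
      rw [Nat.even_add]; simp
    simp only [h2]
  sym i := by
    unfold pis sis
    by_cases h : Even i
    · rw [if_pos h, if_pos h, if_neg (by rw [Nat.even_add_one, not_not]; exact h)]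
      ring
    · rw [if_neg h, if_neg h]
      have h2 : Even (i - 1) := by
        rw [Nat.not_even_iff_odd] at h
        obtain ⟨k, hk⟩ := h
        exact ⟨k, by omega⟩
      rw [if_pos h2]
      ring
  eps := Or.inr rfl

theorem gdata_o : GData id (fun _ => 1) 1 where
  inv i := rfl
  shift i := rfl
  small0 := by simp
  small1 := by simp
  sne i := one_ne_zero
  sshift i := rfl
  sym i := by simp
  eps := Or.inl rfl

theorem sympForm_eq (x y : V) : sympForm x y = frm pis sis x y := by
  rw [frm_sum]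
  unfold sympForm
  apply Finsupp.sum_congr
  intro i _
  unfold pis sis
  split_ifs
  · ring
  · ring

theorem symmForm_eq (x y : V) : symmForm x y = frm id (fun _ => 1) x y := by
  rw [frm_sum]
  unfold symmForm
  apply Finsupp.sum_congr
  intro i _
  simp

theorem step_sp (N : ℕ) : TwoStep (FN pis sis N) (gam pis sis) := by
  apply twoStep_alt
  · intro x
    have h1 := frm_refl_eps gdata_sp (jN N x) (jN N x)
    rw [FN_apply]
    have h2 : 2 * frm pis sis (jN N x) (jN N x) = 0 := by linear_combination h1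
    simpa using h2
  · simp [gam, pis]
  · simp [gam, pis, sis]
  · simp [gam, pis, sis]
  · simp [gam, pis]

theorem FN_symm (N : ℕ) : (FN id (fun _ => (1 : ℂ)) N).IsSymm := by
  constructor
  intro x y
  have h1 := frm_refl_eps gdata_o (jN N x) (jN N y)
  rw [one_mul] at h1
  exact h1

theorem step_o (N : ℕ) : TwoStep (FN id (fun _ => (1 : ℂ)) N) (gam id (fun _ => 1)) := by
  apply twoStep_symm
  · exact FN_symm N
  · simp [gam]
  · simp [gam]
  · simp [gam]
  · simp [gam]

/-- the ideal generated by powers of determinants -/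
noncomputable def detIdeal (M N0 : ℕ) : Ideal A :=
  Ideal.span {f | ∃ u : Fin M → V,
    f = (Matrix.det (Matrix.of fun i j : Fin M => bil (u i) (u j))) ^ N0}

theorem detIdeal_stable (M N0 : ℕ) (w : ℕ → V) : ∀ f ∈ detIdeal M N0, sub w f ∈ detIdeal M N0 := by
  have h : detIdeal M N0 ≤ (detIdeal M N0).comap (sub w) := by
    conv_lhs => unfold detIdeal
    rw [Ideal.span_le]
    rintro f ⟨u, rfl⟩
    rw [SetLike.mem_coe, Ideal.mem_comap, sub_det]
    exact Ideal.subset_span ⟨_, rfl⟩
  exact h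

theorem evO_bil (c : ℂ) (u v : V) : evO c (bil u v) = c * frm id (fun _ => 1) u v := by
  have : (bil.compr₂ (evO c).toLinearMap) = c • (frm id (fun _ => (1 : ℂ))) := by
    apply Finsupp.lhom_ext'
    intro i
    apply LinearMap.ext_ring
    apply Finsupp.lhom_ext'
    intro j
    apply LinearMap.ext_ring
    change evO c (bil (ee i) (ee j)) = c * frm id (fun _ => 1) (ee i) (ee j)
    rw [bil_ee, frm_ee]
    unfold evO gam
    rw [aeval_X]
    change (if i = j then c else 0) = _
    by_cases h : i = j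
    · simp [h]
    · rw [if_neg h, if_neg (fun h' => h h'.symm), mul_zero]
  have h := congrArg (fun f : V →ₗ[ℂ] V →ₗ[ℂ] ℂ => f u v) this
  simpa using h

theorem detIdeal_ne_bot (M N0 : ℕ) : detIdeal M N0 ≠ ⊥ := by
  intro h
  have h1 : (Matrix.det (Matrix.of fun i j : Fin M => bil (ee (i : ℕ)) (ee (j : ℕ)))) ^ N0 ∈
      detIdeal M N0 := Ideal.subset_span ⟨fun i => ee (i : ℕ), rfl⟩
  rw [h, Ideal.mem_bot] at h1
  have h2 := congrArg (evO 1) h1
  rw [map_pow, AlgHom.map_det, map_zero] at h2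
  have h3 : ((evO 1).mapMatrix (Matrix.of fun i j : Fin M => bil (ee (i : ℕ)) (ee (j : ℕ)))) = 1 := by
    ext i j
    simp only [AlgHom.mapMatrix_apply, Matrix.map_apply, Matrix.of_apply]
    rw [evO_bil, frm_ee, one_mul]
    unfold gam
    rw [Matrix.one_apply]
    by_cases hij : i = j
    · simp [hij]
    · rw [if_neg hij, if_neg]
      intro h'
      exact hij (Fin.ext h'.symm)
  rw [h3, Matrix.det_one, one_pow] at h2
  exact one_ne_zero h2

theorem detIdeal_le {J : Ideal A} {M N0 : ℕ} (h : ∀ u : Fin M → V,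
    (Matrix.det (Matrix.of fun i j : Fin M => bil (u i) (u j))) ^ N0 ∈ J) :
    detIdeal M N0 ≤ J := by
  unfold detIdeal
  rw [Ideal.span_le]
  rintro f ⟨u, rfl⟩
  exact h u

/-- symplectic case -/
theorem main_sp (J : Ideal A) (hJ0 : J ≠ ⊥) (hJ : Stab pis sis J) :
    ∃ M N0 : ℕ, detIdeal M N0 ≤ J := by
  obtain ⟨M, N0, hM, h0⟩ := det_pow_mem gdata_sp step_sp False (fun h => h.elim) (by
    intro N hN q hq S _ hS
    refine ⟨0, ?_, fun h => absurd rfl h⟩
    intro x hx y hy
    rw [zero_mul]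
    apply polar_zero q hq S _ x hx y hy
    intro z hz
    apply hS z hz
    have h1 := frm_refl_eps gdata_sp (jN N z) (jN N z)
    rw [FN_apply]
    have h2 : 2 * frm pis sis (jN N z) (jN N z) = 0 := by linear_combination h1
    simpa using h2) hJ hJ0 (fun h => h.elim)
  exact ⟨M, N0, detIdeal_le (det_all_mem gdata_sp step_sp hJ hM h0)⟩

/-- orthogonal case -/
theorem main_o (J : Ideal A) (hJ : Stab id (fun _ => 1) J)
    (hJO : ∀ c : ℂ, c ≠ 0 → ∃ f ∈ J, evO c f ≠ 0) :
    ∃ M N0 : ℕ, detIdeal M N0 ≤ J := by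
  have hJ0 : J ≠ ⊥ := by
    rintro rfl
    obtain ⟨f, hf, hf'⟩ := hJO 1 one_ne_zero
    rw [Ideal.mem_bot] at hf
    rw [hf, map_zero] at hf'
    exact hf' rfl
  obtain ⟨M, N0, hM, h0⟩ := det_pow_mem gdata_o step_o True (fun _ i j => by
      unfold gam
      by_cases h : i = j
      · simp [h]
      · rw [if_neg h, if_neg (fun h' => h h'.symm)]) (by
    intro N hN q hq S hS1 hS2
    obtain ⟨c, hc⟩ := cone_symm (FN id (fun _ => (1 : ℂ)) N) (FN_symm N) q hq S hS1 hS2
    exact ⟨c, hc, fun _ => trivial⟩) hJ hJ0 (fun _ => hJO)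
  exact ⟨M, N0, detIdeal_le (det_all_mem gdata_o step_o hJ hM h0)⟩

/-- frame attached to a matrix -/
noncomputable def wP {n : ℕ} (P : Matrix (Fin n) (Fin n) ℂ) (i : ℕ) : V :=
  if h : i < n then jN n (fun k => P k ⟨i, h⟩) else ee i

theorem lin_wP_jN {n : ℕ} (P : Matrix (Fin n) (Fin n) ℂ) (x : Fin n → ℂ) :
    lin (wP P) (jN n x) = jN n (P.mulVec x) := by
  have e1 : jN n x = ∑ k : Fin n, x k • ee (k : ℕ) := by
    unfold jN
    rw [Fintype.linearCombination_apply]
  have e2 : P.mulVec x = ∑ k : Fin n, x k • (fun i => P i k) := by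
    funext i
    rw [Matrix.mulVec, dotProduct, Finset.sum_apply]
    apply Finset.sum_congr rfl
    intro k _
    rw [Pi.smul_apply, smul_eq_mul, mul_comm]
  rw [e1, map_sum, e2, map_sum]
  apply Finset.sum_congr rfl
  intro k _
  rw [map_smul, map_smul, lin_ee, wP, dif_pos k.2]

theorem lin_wP_comp {n : ℕ} (P Q : Matrix (Fin n) (Fin n) ℂ) (x : V) :
    lin (wP P) (lin (wP Q) x) = lin (wP (P * Q)) x := by
  have : (lin (wP P)) ∘ₗ (lin (wP Q)) = lin (wP (P * Q)) := by
    apply Finsupp.lhom_ext'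
    intro i
    apply LinearMap.ext_ring
    change lin (wP P) (lin (wP Q) (ee i)) = lin (wP (P * Q)) (ee i)
    rw [lin_ee, lin_ee]
    by_cases hi : i < n
    · rw [wP, dif_pos hi, wP, dif_pos hi, lin_wP_jN]
      congr 1
    · rw [wP, dif_neg hi, wP, dif_neg hi, lin_ee, wP, dif_neg hi]
  exact congrArg (fun f : V →ₗ[ℂ] V => f x) this

theorem lin_wP_one {n : ℕ} (x : V) : lin (wP (1 : Matrix (Fin n) (Fin n) ℂ)) x = x := by
  have : lin (wP (1 : Matrix (Fin n) (Fin n) ℂ)) = LinearMap.id := by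
    apply Finsupp.lhom_ext'
    intro i
    apply LinearMap.ext_ring
    change lin (wP (1 : Matrix (Fin n) (Fin n) ℂ)) (ee i) = ee i
    rw [lin_ee]
    by_cases hi : i < n
    · rw [wP, dif_pos hi, ← jN_single n ⟨i, hi⟩]
      congr 1
      funext k
      rw [Matrix.one_apply, Pi.single_apply]
    · rw [wP, dif_neg hi]
  rw [this]
  rfl

theorem exists_gl {n : ℕ} (P : Matrix (Fin n) (Fin n) ℂ) (hP : P.det ≠ 0) :
    ∃ g : V ≃ₗ[ℂ] V, Finitary g ∧ ∀ i, g (ee i) = wP P i := by
  have hu : IsUnit P.det := isUnit_iff_ne_zero.2 hP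
  refine ⟨LinearEquiv.ofLinear (lin (wP P)) (lin (wP P⁻¹)) ?_ ?_, ⟨n, ?_, ?_⟩, ?_⟩
  · apply LinearMap.ext
    intro x
    rw [LinearMap.comp_apply, lin_wP_comp, Matrix.mul_nonsing_inv _ hu, lin_wP_one]
    rfl
  · apply LinearMap.ext
    intro x
    rw [LinearMap.comp_apply, lin_wP_comp, Matrix.nonsing_inv_mul _ hu, lin_wP_one]
    rfl
  · intro i hi
    rw [LinearEquiv.ofLinear_apply, lin_ee, wP, dif_neg (by omega)]
  · intro i hi j hj
    rw [LinearEquiv.ofLinear_apply, lin_ee, wP, dif_pos hi, jN_apply, dif_neg (by omega)]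
  · intro i
    rw [LinearEquiv.ofLinear_apply, lin_ee]

/-- a nonzero stable ideal of the full group does not vanish at scalar forms -/
theorem gl_not_scalar (I : Ideal A) (hI0 : I ≠ ⊥)
    (hI : ∀ g : V ≃ₗ[ℂ] V, Finitary g → ∀ f ∈ I, sub (fun i => g (ee i)) f ∈ I)
    (c : ℂ) (hc : c ≠ 0) : ∃ f ∈ I, evO c f ≠ 0 := by
  classical
  obtain ⟨f, hfI, hf0⟩ := Submodule.exists_mem_ne_zero_of_ne_bot hI0
  obtain ⟨n, hn⟩ := exists_lev f
  have hD0 : iot n (detM n) ≠ 0 := by
    intro h0
    have h1 := detIdeal_ne_bot n 1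
    apply h1
    rw [eq_bot_iff]
    apply detIdeal_le
    intro u
    rw [iot_detM] at h0
    have h2 : sub (fun i => if h : i < n then u ⟨i, h⟩ else 0)
        (Matrix.det (Matrix.of fun i j : Fin n => bil (ee (i : ℕ)) (ee (j : ℕ))) ^ 1) = 0 := by
      rw [pow_one, h0, map_zero]
    rw [sub_det] at h2
    have h3 : (fun i j : Fin n => bil (lin (fun i => if h : i < n then u ⟨i, h⟩ else 0)
        (ee (i : ℕ))) (lin (fun i => if h : i < n then u ⟨i, h⟩ else 0) (ee (j : ℕ)))) =
        fun i j : Fin n => bil (u i) (u j) := by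
      funext i j
      rw [lin_ee, lin_ee, dif_pos i.2, dif_pos j.2]
    rw [h3] at h2
    rw [h2]
    exact Submodule.zero_mem _
  have hprod : f * iot n (detM n) ≠ 0 := mul_ne_zero hf0 hD0
  obtain ⟨Y, hY⟩ : ∃ Y : Sym2 ℕ → ℂ, aeval Y (f * iot n (detM n)) ≠ 0 := by
    by_contra hcon
    push Not at hcon
    apply hprod
    apply MvPolynomial.funext
    intro Y
    rw [map_zero, ← MvPolynomial.aeval_eq_eval]
    exact hcon Y
  rw [map_mul] at hY
  have hYf : aeval Y f ≠ 0 := left_ne_zero_of_mul hY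
  have hYD := right_ne_zero_of_mul hY
  have hYdet : (Matrix.of fun i j : Fin n => Y s((i : ℕ), (j : ℕ))).det ≠ 0 := by
    intro h0
    apply hYD
    rw [iot_detM, AlgHom.map_det, ← h0]
    congr 1
    ext i j
    simp only [AlgHom.mapMatrix_apply, Matrix.map_apply, Matrix.of_apply, bil_ee, aeval_X]
  obtain ⟨P, hP⟩ := symm_factor n (c⁻¹ • (Matrix.of fun i j : Fin n => Y s((i : ℕ), (j : ℕ)))) (by
    ext i j
    simp only [Matrix.transpose_apply, Matrix.of_apply, Matrix.smul_apply]
    rw [Sym2.eq_swap])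
  have hPdet : P.det ≠ 0 := by
    intro h0
    have h1 := congrArg Matrix.det hP
    rw [Matrix.det_mul, Matrix.det_transpose, h0, Matrix.det_smul] at h1
    have h2 := mul_ne_zero (pow_ne_zero (Fintype.card (Fin n)) (inv_ne_zero hc)) hYdet
    apply h2
    rw [← h1]
    ring
  obtain ⟨g, hg1, hg2⟩ := exists_gl P hPdet
  refine ⟨sub (fun i => g (ee i)) f, hI g hg1 f hfI, ?_⟩
  have h1 : evO c (sub (fun i => g (ee i)) f) = aeval Y f := by
    have h2 : (evO c).comp (sub (fun i => g (ee i))) = aeval (fun s => evO c (Yw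
        (fun i => g (ee i)) s)) := by
      apply MvPolynomial.algHom_ext
      intro s
      rw [AlgHom.comp_apply]
      unfold sub
      rw [aeval_X, aeval_X]
    have h3 := congrArg (fun φ : A →ₐ[ℂ] ℂ => φ f) h2
    simp only [AlgHom.comp_apply] at h3
    rw [h3]
    apply aeval_congr_lev hn
    intro i hi j hj
    rw [Yw_mk, evO_bil, hg2, hg2, wP, dif_pos hi, wP, dif_pos hj]
    have h4 := congrArg (fun Z : Matrix (Fin n) (Fin n) ℂ => Z ⟨i, hi⟩ ⟨j, hj⟩) hP
    simp only [Matrix.mul_apply, Matrix.transpose_apply, Matrix.of_apply, Matrix.smul_apply,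
      smul_eq_mul] at h4
    have h5 : frm id (fun _ => (1 : ℂ)) (jN n fun k => P k ⟨i, hi⟩) (jN n fun k => P k ⟨j, hj⟩) =
        ∑ k, P k ⟨i, hi⟩ * P k ⟨j, hj⟩ := by
      have e1 : (jN n fun k => P k ⟨i, hi⟩) = ∑ k : Fin n, P k ⟨i, hi⟩ • ee (k : ℕ) := by
        unfold jN
        rw [Fintype.linearCombination_apply]
      rw [e1, LinearMap.map_sum₂]
      apply Finset.sum_congr rfl
      intro k _
      rw [map_smul, LinearMap.smul_apply, frm_ee_left, one_mul, id, jN_apply, dif_pos k.2,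
        smul_eq_mul]
    rw [h5, h4, ← mul_assoc, mul_inv_cancel₀ hc, one_mul]
  rw [h1]
  exact hYf

end MP50e386
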